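import Pool.Agent.Zk8.FK.Trace
import Pool.Agent.Zk8.DT.Pure

/-!
# The Frobenius eigenvalues in supersingular degrees
-/

set_option autoImplicit false
set_option linter.all false

namespace Pool.Agent.Zk8.FK

open Finset
open Pool.Agent.Zk8.DT (exists_pure)

section

variable {k : Type} [Field k] [Fintype k] {p m : ℕ} [Fact p.Prime] [CharP k p] [NeZero m]

/-- characters of order dividing `Q + 1` are trivial on the field with `Q` elements -/
lemma trivial_on_fix {f : ℕ} (hf : 0 < f) (hk : Fintype.card k = (p ^ f) ^ 2)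
    (hmQ : m ∣ p ^ f + 1) {θ : MulChar k ℂ} (hθ : orderOf θ = m) :
    ∀ y : k, y ≠ 0 → y ^ p ^ f = y → θ y = 1 := by
  classical
  have hp : p.Prime := Fact.out
  set Q := p ^ f with hQ
  have hQ1 : 1 < Q := Nat.one_lt_pow hf.ne' hp.one_lt
  intro y hy hyQ
  obtain ⟨g, hg⟩ := IsCyclic.exists_generator (α := kˣ)
  have hgo : orderOf g = Fintype.card k - 1 := by
    rw [orderOf_eq_card_of_forall_mem_zpowers hg, Nat.card_eq_fintype_card, Fintype.card_units]
  obtain ⟨u, rfl⟩ : ∃ u : kˣ, (u : k) = y := ⟨Units.mk0 y hy, rfl⟩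
  obtain ⟨j, hj⟩ : u ∈ Submonoid.powers g := by
    have h1 : (u : kˣ) ∈ Subgroup.zpowers g := hg u
    rwa [← mem_powers_iff_mem_zpowers] at h1
  have hj' : g ^ j = u := hj
  have h1 : u ^ (Q - 1) = 1 := by
    apply Units.ext
    push_cast
    apply mul_right_cancel₀ hy
    rw [← pow_succ, one_mul, Nat.sub_add_cancel hQ1.le, hyQ]
  rw [← hj', ← pow_mul] at h1
  have h2 := orderOf_dvd_of_pow_eq_one h1
  rw [hgo, hk] at h2
  have h3 : Q ^ 2 - 1 = (Q + 1) * (Q - 1) := by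
    have := Nat.sq_sub_sq Q 1
    simpa using this
  rw [h3] at h2
  have h4 : Q + 1 ∣ j := Nat.dvd_of_mul_dvd_mul_right (by omega) h2
  obtain ⟨t, ht⟩ := hmQ.trans h4
  have h5 : θ ^ j = 1 := by
    rw [ht, pow_mul, ← hθ, pow_orderOf_eq_one, one_pow]
  rw [← hj']
  push_cast
  rw [map_pow, ← MulChar.pow_apply_coe, h5, MulChar.one_apply_coe]

variable {r : ℕ} {n μ : Fin r → ℕ} [∀ b, NeZero (μ b)]

/-- the eigenvalue of Frobenius on the lines, for `|k| = Q ^ 2` and `m ∣ Q + 1` -/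
theorem rho_pure {f : ℕ} (hf : 0 < f) (hk : Fintype.card k = (p ^ f) ^ 2)
    (hmQ : m ∣ p ^ f + 1) (hμ : ∀ b, μ b ∣ m) {χ : MulChar k ℂ} (hχ : orderOf χ = m)
    {ψ : AddChar k ℂ} (hψ : ψ ≠ 1) {s : ∀ b, Fin (n b + 2) → ZMod (μ b)} (hs : s ∈ lines n μ) :
    rho m χ ψ s = -((p ^ f : ℕ) : ℂ) ^ (∑ b, n b) := by
  classical
  have hp : p.Prime := Fact.out
  obtain ⟨z, hz0, hz⟩ := exists_pure (p := p) hf hk hψ
  have htriv := trivial_on_fix (p := p) hf hk hmQ hχ
  set Q := p ^ f with hQ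
  have hQ1 : 1 < Q := Nat.one_lt_pow hf.ne' hp.one_lt
  have hQ0 : (Q : ℂ) ≠ 0 := by exact_mod_cast (by omega : Q ≠ 0)
  have hpa : ∀ (N : ℕ) (y : k), y ≠ 0 → (χ ^ N) y = χ y ^ N := by
    intro N y hy
    have h1 := MulChar.pow_apply_coe χ N (Units.mk0 y hy)
    rwa [Units.val_mk0] at h1
  have hzm : χ z ^ m = 1 := by
    rw [← hpa m z hz0, ← hχ, pow_orderOf_eq_one]
    exact MulChar.one_apply_coe (Units.mk0 z hz0)
  have hg : ∀ b j, gaussSum (χ ^ ex m s b j) ψ = (Q : ℂ) * χ z ^ ex m s b j := by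
    intro b j
    rw [hz (χ ^ ex m s b j) (fun h => ?_) (fun y hy hyQ => by rw [hpa _ y hy, htriv y hy hyQ, one_pow]),
      hpa _ z hz0]
    have h3 := orderOf_dvd_of_pow_eq_one h
    rw [hχ] at h3
    exact (ex_pos hμ hs b j).ne' (Nat.eq_zero_of_dvd_of_lt h3 (ex_lt hμ s b j))
  have hblock : ∀ b ∈ univ, ∏ j, gaussSum (χ ^ ex m s b j) ψ = (Q : ℂ) ^ n b * (Q : ℂ) ^ 2 := by
    intro b _
    rw [Finset.prod_congr rfl fun j _ => hg b j, Finset.prod_mul_distrib, Finset.prod_const,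
      Finset.card_univ, Fintype.card_fin, Finset.prod_pow_eq_pow_sum]
    have h2 : (μ b) ∣ ∑ j, (s b j).val := by
      rw [← ZMod.natCast_eq_zero_iff]
      push_cast
      simp only [ZMod.natCast_zmod_val]
      exact ((mem_lines.1 hs) b).2
    obtain ⟨c, hc⟩ := h2
    have h3 : ∑ j, ex m s b j = m * c := by
      simp only [ex]
      rw [← Finset.mul_sum, hc, ← mul_assoc, Nat.div_mul_cancel (hμ b)]
    rw [h3, pow_mul, hzm, one_pow, mul_one, pow_add]
  rw [rho, Finset.prod_congr rfl hblock, Finset.prod_mul_distrib, Finset.prod_const,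
    Finset.card_univ, Fintype.card_fin, Finset.prod_pow_eq_pow_sum, hk]
  push_cast
  rw [pow_right_comm]
  field_simp

end

end Pool.Agent.Zk8.FK
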