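import Pool.Agent.Zk8.DH.Stick
import Pool.Agent.H916T.Defs

/-!
# Characters in supersingular degrees
-/

set_option autoImplicit false
set_option linter.all false

namespace Pool.Agent.Zk8.FK

open Finset
open Pool.Agent.H916T (Generated SurfaceTate Standard IsTate)

section

variable {M : ℕ} [NeZero M] {base : Multiset (ZMod M) → Prop}

lemma gen_zero (hM : 4 ≤ M) : Generated M base 0 := by
  have h1 : (1 : ZMod M) ≠ 0 := by
    have : Fact (1 < M) := ⟨by omega⟩
    exact one_ne_zero
  exact Generated.cancel 1 0 (Generated.pair 1 h1)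

/-- the multiset `{a, a, a, a, a, a}` with `3 a = 0` -/
lemma gen_six (hM : 4 ≤ M) (hb : ∀ t : Multiset (ZMod M), (0 : ZMod M) ∉ t → t.sum = 0 →
    Multiset.card t = 4 → base t) (a : ZMod M) (ha : a ≠ 0) (h3 : a + a + a = 0) :
    Generated M base {a, a, a, a, a, a} := by
  classical
  obtain ⟨x, hx⟩ : ∃ x : ZMod M, x ∉ ({0, a, -a} : Finset (ZMod M)) := by
    by_contra h
    push Not at h
    have h1 : (Finset.univ : Finset (ZMod M)) ⊆ {0, a, -a} := fun x _ => h x
    have h2 := Finset.card_le_card h1
    rw [Finset.card_univ, ZMod.card] at h2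
    have h3 := Finset.card_le_three (a := (0 : ZMod M)) (b := a) (c := -a)
    omega
  simp only [Finset.mem_insert, Finset.mem_singleton, not_or] at hx
  obtain ⟨hx0, hx1, hx2⟩ := hx
  have hy : a - x ≠ 0 := sub_ne_zero.2 (Ne.symm hx1)
  have hz : a + x ≠ 0 := fun h => hx2 (eq_neg_of_add_eq_zero_right h)
  have b1 : Generated M base {a, a, x, a - x} := Generated.ofBase _ (hb _ (by
    simp only [Multiset.insert_eq_cons, Multiset.mem_cons, Multiset.mem_singleton, not_or]
    exact ⟨ha.symm, ha.symm, hx0 ∘ Eq.symm, hy.symm⟩) (by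
    simp only [Multiset.insert_eq_cons, Multiset.sum_cons, Multiset.sum_singleton]
    linear_combination h3) (by simp))
  have b2 : Generated M base {a, a, -x, a + x} := Generated.ofBase _ (hb _ (by
    simp only [Multiset.insert_eq_cons, Multiset.mem_cons, Multiset.mem_singleton, not_or]
    exact ⟨ha.symm, ha.symm, fun h => hx0 (neg_eq_zero.1 h.symm), hz.symm⟩) (by
    simp only [Multiset.insert_eq_cons, Multiset.sum_cons, Multiset.sum_singleton]
    linear_combination h3) (by simp))
  have b3 : Generated M base {a, a, -(a - x), -(a + x)} := Generated.ofBase _ (hb _ (by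
    simp only [Multiset.insert_eq_cons, Multiset.mem_cons, Multiset.mem_singleton, not_or]
    exact ⟨ha.symm, ha.symm, fun h => hy (neg_eq_zero.1 h.symm), fun h => hz (neg_eq_zero.1 h.symm)⟩) (by
    simp only [Multiset.insert_eq_cons, Multiset.sum_cons, Multiset.sum_singleton]
    ring) (by simp))
  have h := Generated.join _ _ (Generated.join _ _ b1 b2) b3
  refine Generated.cancel (a + x) _ (Generated.cancel (a - x) _ (Generated.cancel x _ ?_))
  convert h using 1
  simp only [Multiset.insert_eq_cons, ← Multiset.singleton_add]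
  abel

/-- **Generation**: if all multisets of four nonzero residues with sum zero belong to the family,
then all multisets of an even number of nonzero residues with sum zero are generated -/
theorem gen_of_four (hM : 4 ≤ M) (hb : ∀ t : Multiset (ZMod M), (0 : ZMod M) ∉ t → t.sum = 0 →
    Multiset.card t = 4 → base t) : ∀ (n : ℕ) (s : Multiset (ZMod M)), (0 : ZMod M) ∉ s →
    s.sum = 0 → Multiset.card s = 2 * n → Generated M base s := by
  classical
  intro n
  induction n using Nat.strong_induction_on with
  | _ n ih =>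
  intro s h0 hs hc
  by_cases hn0 : n = 0
  · subst hn0
    rw [mul_zero, Multiset.card_eq_zero] at hc
    rw [hc]
    exact gen_zero hM
  by_cases hn1 : n = 1
  · subst hn1
    rw [mul_one, Multiset.card_eq_two] at hc
    obtain ⟨a, b, rfl⟩ := hc
    simp only [Multiset.insert_eq_cons, Multiset.mem_cons, Multiset.mem_singleton, not_or] at h0
    simp only [Multiset.insert_eq_cons, Multiset.sum_cons, Multiset.sum_singleton] at hs
    rw [eq_neg_of_add_eq_zero_right hs]
    exact Generated.pair a (Ne.symm h0.1)
  by_cases hn2 : n = 2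
  · subst hn2
    exact Generated.ofBase _ (hb _ h0 hs hc)
  -- three elements
  obtain ⟨a, s1, rfl⟩ : ∃ a s1, s = a ::ₘ s1 := by
    obtain ⟨a, ha⟩ := Multiset.card_pos_iff_exists_mem.1 (show 0 < Multiset.card s by omega)
    exact ⟨a, _, (Multiset.cons_erase ha).symm⟩
  rw [Multiset.card_cons] at hc
  obtain ⟨b, s2, rfl⟩ : ∃ b s2, s1 = b ::ₘ s2 := by
    obtain ⟨a, ha⟩ := Multiset.card_pos_iff_exists_mem.1 (show 0 < Multiset.card s1 by omega)
    exact ⟨a, _, (Multiset.cons_erase ha).symm⟩
  rw [Multiset.card_cons] at hc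
  simp only [Multiset.mem_cons, not_or] at h0
  simp only [Multiset.sum_cons] at hs
  obtain ⟨ha0, hb0, hs0⟩ := h0
  -- the case of a good third element
  by_cases hgood : ∃ c ∈ s2, a + b + c ≠ 0
  · obtain ⟨c, hcm, hne⟩ := hgood
    obtain ⟨s3, rfl⟩ : ∃ s3, s2 = c ::ₘ s3 := ⟨_, (Multiset.cons_erase hcm).symm⟩
    rw [Multiset.card_cons] at hc
    simp only [Multiset.mem_cons, not_or] at hs0
    simp only [Multiset.sum_cons] at hs
    have g1 : Generated M base {a, b, c, -(a + b + c)} := Generated.ofBase _ (hb _ (by
      simp only [Multiset.insert_eq_cons, Multiset.mem_cons, Multiset.mem_singleton, not_or]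
      exact ⟨ha0, hb0, hs0.1, fun h => hne (neg_eq_zero.1 h.symm)⟩) (by
      simp only [Multiset.insert_eq_cons, Multiset.sum_cons, Multiset.sum_singleton]
      ring) (by simp))
    have g2 : Generated M base ((a + b + c) ::ₘ s3) := ih (n - 1) (by omega) _ (by
      simp only [Multiset.mem_cons, not_or]
      exact ⟨Ne.symm hne, hs0.2⟩) (by
      simp only [Multiset.sum_cons]
      linear_combination hs) (by
      rw [Multiset.card_cons]
      omega)
    refine Generated.cancel (a + b + c) _ ?_
    convert Generated.join _ _ g1 g2 using 1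
    simp only [Multiset.insert_eq_cons, ← Multiset.singleton_add]
    abel
  · push Not at hgood
    -- all the elements of `s2` are `-(a + b)`
    set c : ZMod M := -(a + b) with hcd
    have hall : ∀ x ∈ s2, x = c := by
      intro x hx
      have := hgood x hx
      rw [hcd]
      linear_combination this
    have hs2 : s2 = Multiset.replicate (Multiset.card s2) c := Multiset.eq_replicate_card.2 hall
    obtain ⟨l, hl⟩ : ∃ l, Multiset.card s2 = l + 4 := ⟨Multiset.card s2 - 4, by omega⟩
    have hc0 : c ≠ 0 := by
      have : c ∈ s2 := by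
        rw [hs2, hl]
        simp
      exact fun h => hs0 (h ▸ this)
    have hs2' : s2 = c ::ₘ c ::ₘ c ::ₘ c ::ₘ Multiset.replicate l c := by
      rw [hs2, hl]
      simp [Multiset.replicate_succ]
    by_cases hA : b + c + c ≠ 0
    · -- use `{b, c, c}`
      have g1 : Generated M base {b, c, c, -(b + c + c)} := Generated.ofBase _ (hb _ (by
        simp only [Multiset.insert_eq_cons, Multiset.mem_cons, Multiset.mem_singleton, not_or]
        exact ⟨hb0, hc0.symm, hc0.symm, fun h => hA (neg_eq_zero.1 h.symm)⟩) (by
        simp only [Multiset.insert_eq_cons, Multiset.sum_cons, Multiset.sum_singleton]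
        ring) (by simp))
      have g2 : Generated M base ((b + c + c) ::ₘ a ::ₘ c ::ₘ c ::ₘ Multiset.replicate l c) :=
        ih (n - 1) (by omega) _ (by
        simp only [Multiset.mem_cons, not_or, Multiset.mem_replicate]
        exact ⟨Ne.symm hA, ha0, hc0.symm, hc0.symm, fun h => hc0 h.2.symm⟩) (by
        rw [hs2'] at hs
        simp only [Multiset.sum_cons] at hs ⊢
        linear_combination hs) (by
        simp only [Multiset.card_cons, Multiset.card_replicate]
        omega)
      rw [hs2']
      refine Generated.cancel (b + c + c) _ ?_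
      convert Generated.join _ _ g1 g2 using 1
      simp only [Multiset.insert_eq_cons, ← Multiset.singleton_add]
      abel
    · push Not at hA
      -- now `a = b = c`
      have hab : a = c := by
        have : a + b + c = 0 := by rw [hcd]; ring
        linear_combination this - hA
      by_cases hB : c + c + c ≠ 0
      · have g1 : Generated M base {c, c, c, -(c + c + c)} := Generated.ofBase _ (hb _ (by
          simp only [Multiset.insert_eq_cons, Multiset.mem_cons, Multiset.mem_singleton, not_or]
          exact ⟨hc0.symm, hc0.symm, hc0.symm, fun h => hB (neg_eq_zero.1 h.symm)⟩) (by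
          simp only [Multiset.insert_eq_cons, Multiset.sum_cons, Multiset.sum_singleton]
          ring) (by simp))
        have g2 : Generated M base ((c + c + c) ::ₘ a ::ₘ b ::ₘ c ::ₘ Multiset.replicate l c) :=
          ih (n - 1) (by omega) _ (by
          simp only [Multiset.mem_cons, not_or, Multiset.mem_replicate]
          exact ⟨Ne.symm hB, ha0, hb0, hc0.symm, fun h => hc0 h.2.symm⟩) (by
          rw [hs2'] at hs
          simp only [Multiset.sum_cons] at hs ⊢
          linear_combination hs) (by
          simp only [Multiset.card_cons, Multiset.card_replicate]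
          omega)
        rw [hs2']
        refine Generated.cancel (c + c + c) _ ?_
        convert Generated.join _ _ g1 g2 using 1
        simp only [Multiset.insert_eq_cons, ← Multiset.singleton_add]
        abel
      · push Not at hB
        have hbc : b = c := by linear_combination hA - hB
        have g1 := gen_six hM hb c hc0 hB
        have g2 : Generated M base (Multiset.replicate l c) := ih (n - 3) (by omega) _ (by
          simp only [Multiset.mem_replicate]
          exact fun h => hc0 h.2.symm) (by
          rw [hs2'] at hs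
          simp only [Multiset.sum_cons] at hs
          rw [hab, hbc] at hs
          linear_combination hs - 2 * hB) (by
          rw [Multiset.card_replicate]
          omega)
        rw [hs2', hab, hbc]
        convert Generated.join _ _ g1 g2 using 1
        simp only [Multiset.insert_eq_cons, ← Multiset.singleton_add]
        abel

end

/-- for a supersingular degree the residues of an orbit are equidistributed -/
lemma super_sum {p m e : ℕ} [NeZero m] (hp : p.Coprime m) (h : m ∣ p ^ e + 1) (he : 0 < e)
    (c : ZMod m) (hc : c ≠ 0) :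
    2 * ∑ j ∈ range (orderOf (p : ZMod m)), ((p : ZMod m) ^ j * c).val =
      orderOf (p : ZMod m) * m := by
  set f := orderOf (p : ZMod m) with hf
  have h1 : (p : ZMod m) ^ e = -1 := by
    have h2 : ((p ^ e + 1 : ℕ) : ZMod m) = 0 := (ZMod.natCast_eq_zero_iff _ _).2 h
    push_cast at h2
    exact eq_neg_of_add_eq_zero_left h2
  obtain ⟨n, hn⟩ : f ∣ 2 * e := by
    apply orderOf_dvd_of_pow_eq_one
    rw [mul_comm, pow_mul, h1]
    norm_num
  have hn0 : 0 < n := by
    rcases Nat.eq_zero_or_pos n with h0 | h0
    · rw [h0, mul_zero] at hn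
      omega
    · exact h0
  have hpu : ∀ j : ℕ, IsUnit ((p : ZMod m) ^ j) := fun j =>
    ((ZMod.isUnit_iff_coprime p m).2 hp).pow j
  have h2 : ∑ j ∈ range (n * f), ((p : ZMod m) ^ j * c).val =
      n * ∑ j ∈ range f, ((p : ZMod m) ^ j * c).val :=
    Pool.Agent.N214.HB.sum_periodic (f := f) (fun j => ((p : ZMod m) ^ j * c).val)
      (fun j => by rw [pow_add, hf, pow_orderOf_eq_one, mul_one]) n
  have h3 : ∑ j ∈ range (n * f), ((p : ZMod m) ^ j * c).val = e * m := by
    rw [mul_comm n f, ← hn, two_mul, Finset.sum_range_add, ← Finset.sum_add_distrib]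
    have h4 : ∀ j ∈ range e, ((p : ZMod m) ^ j * c).val + ((p : ZMod m) ^ (e + j) * c).val = m := by
      intro j _
      have hne : (p : ZMod m) ^ j * c ≠ 0 := fun h0 => hc (((hpu j).mul_right_eq_zero).mp h0)
      have h5 : (p : ZMod m) ^ (e + j) * c = -((p : ZMod m) ^ j * c) := by
        rw [pow_add, h1]
        ring
      have : NeZero ((p : ZMod m) ^ j * c) := ⟨hne⟩
      rw [h5, ZMod.val_neg_of_ne_zero]
      have := ZMod.val_lt ((p : ZMod m) ^ j * c)
      omega
    rw [Finset.sum_congr rfl h4, Finset.sum_const, Finset.card_range, smul_eq_mul]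
  rw [h2] at h3
  apply Nat.eq_of_mul_eq_mul_left hn0
  calc n * (2 * ∑ j ∈ range f, ((p : ZMod m) ^ j * c).val)
      = 2 * (n * ∑ j ∈ range f, ((p : ZMod m) ^ j * c).val) := by ring
    _ = (2 * e) * m := by rw [h3]; ring
    _ = n * (f * m) := by rw [hn]; ring

/-- in a supersingular degree every character is a Tate character -/
lemma super_tate {p m e : ℕ} [NeZero m] (hp : p.Coprime m) (h : m ∣ p ^ e + 1) (he : 0 < e)
    (s : Multiset (ZMod m)) (h0 : (0 : ZMod m) ∉ s) (hs : s.sum = 0)
    (hc : Even (Multiset.card s)) : IsTate p m s := by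
  refine ⟨h0, hc, hs, fun t => ?_⟩
  have h1 : ∑ j ∈ range (orderOf (p : ZMod m)),
      (s.map fun a => ((p : ZMod m) ^ j * ((t : ZMod m) * a)).val).sum =
      (s.map fun a => ∑ j ∈ range (orderOf (p : ZMod m)),
        ((p : ZMod m) ^ j * ((t : ZMod m) * a)).val).sum :=
    (Multiset.sum_map_sum_map _ _).symm
  rw [h1, ← Multiset.sum_map_mul_left]
  have h2 : ∀ a ∈ s, 2 * ∑ j ∈ range (orderOf (p : ZMod m)),
      ((p : ZMod m) ^ j * ((t : ZMod m) * a)).val = orderOf (p : ZMod m) * m := by
    intro a ha
    refine super_sum hp h he _ fun h3 => ?_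
    exact h0 ((Units.mul_right_eq_zero t).1 h3 ▸ ha)
  rw [Multiset.map_congr rfl h2, Multiset.map_const', Multiset.sum_replicate, smul_eq_mul]
  ring

/-- in a supersingular degree the characters are generated by those of Fermat surfaces -/
theorem super_generated {p m e : ℕ} [NeZero m] (hm : 4 ≤ m) (hp : p.Coprime m)
    (h : m ∣ p ^ e + 1) (s : Multiset (ZMod m)) (h0 : (0 : ZMod m) ∉ s) (hs : s.sum = 0)
    (hc : Even (Multiset.card s)) : Generated m (SurfaceTate p m) s := by
  have he : 0 < e := by
    rcases Nat.eq_zero_or_pos e with he | he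
    · rw [he, pow_zero] at h
      have := Nat.le_of_dvd (by norm_num) h
      omega
    · exact he
  obtain ⟨n, hn⟩ := hc
  refine gen_of_four hm (fun t ht0 hts htc => ⟨super_tate hp h he t ht0 hts ?_, htc⟩) n s h0 hs
    (by omega)
  rw [htc]
  exact ⟨2, rfl⟩

lemma gen_mono {M : ℕ} {b1 b2 : Multiset (ZMod M) → Prop} (h : ∀ s, b1 s → b2 s)
    {s : Multiset (ZMod M)} (hs : Generated M b1 s) : Generated M b2 s := by
  induction hs with
  | ofBase s hs => exact Generated.ofBase s (h s hs)
  | pair a ha => exact Generated.pair a ha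
  | join s t _ _ ih1 ih2 => exact Generated.join s t ih1 ih2
  | cancel a s _ ih => exact Generated.cancel a s ih

lemma map_val_id {m : ℕ} [NeZero m] (s : Multiset (ZMod m)) :
    (s.map fun a => ((1 * a.val : ℕ) : ZMod m)) = s := by
  have : (fun a : ZMod m => ((1 * a.val : ℕ) : ZMod m)) = id := by
    funext a
    rw [one_mul, ZMod.natCast_zmod_val]
    rfl
  rw [this, Multiset.map_id]

/-- in a supersingular degree the Tate characters are generated by those of surfaces -/
theorem super_closure {p m e : ℕ} [NeZero m] (hm : 4 ≤ m) (hp : p.Coprime m)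
    (h : m ∣ p ^ e + 1) (s : Multiset (ZMod m)) (h0 : (0 : ZMod m) ∉ s) (hs : s.sum = 0)
    (hc : Even (Multiset.card s)) :
    ∃ N : ℕ, 0 < N ∧ p.Coprime N ∧
      Generated (N * m)
        (fun t => SurfaceTate p (N * m) t ∨ ∃ q : ℕ, q.Prime ∧ q ∣ N * m ∧ Standard q (N * m) t)
        (s.map fun a => ((N * a.val : ℕ) : ZMod (N * m))) := by
  refine ⟨1, one_pos, Nat.coprime_one_right p, ?_⟩
  have key : ∀ M : ℕ, M = m → Generated M
        (fun t => SurfaceTate p M t ∨ ∃ q : ℕ, q.Prime ∧ q ∣ M ∧ Standard q M t)
        (s.map fun a => ((1 * a.val : ℕ) : ZMod M)) := by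
    intro M hM
    subst hM
    rw [map_val_id]
    exact gen_mono (fun t ht => Or.inl ht) (super_generated hm hp h s h0 hs hc)
  exact key (1 * m) (one_mul m)

/-- in a supersingular degree the lines are cut out by correspondences in products of curves -/
theorem super_curves {p m e : ℕ} [NeZero m] (hp : p.Coprime m) (h : m ∣ p ^ e + 1) (h3 : m ≠ 3)
    (ν : ℕ) (s : Multiset (ZMod m)) (h0 : (0 : ZMod m) ∉ s) (hs : s.sum = 0)
    (hc : Multiset.card s = 2 * ν + 3) :
    ∃ N : ℕ, 0 < N ∧ p.Coprime N ∧ ∃ E : Multiset (Multiset (ZMod (N * m))),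
    (∀ e ∈ E, (0 : ZMod (N * m)) ∉ e ∧ e.sum = 0 ∧ Multiset.card e = 3) ∧
    Multiset.card E + 2 * ν + 2 = Multiset.card s ∧
    Generated (N * m)
      (fun t => SurfaceTate p (N * m) t ∨ ∃ q : ℕ, q.Prime ∧ q ∣ N * m ∧ Standard q (N * m) t)
      ((s.map fun a => ((N * a.val : ℕ) : ZMod (N * m))) + E.join.map Neg.neg) := by
  classical
  have hm : 4 ≤ m := by
    by_contra hlt
    have hm0 := NeZero.ne m
    have h12 : m = 1 ∨ m = 2 := by omega
    rcases h12 with rfl | rfl
    · obtain ⟨a, ha⟩ := Multiset.card_pos_iff_exists_mem.1 (show 0 < Multiset.card s by omega)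
      exact h0 (Subsingleton.elim a 0 ▸ ha)
    · have key2 : ∀ a : ZMod 2, a ≠ 0 → a = 1 := by decide
      have h2 : ∀ a ∈ s, a = 1 := fun a ha => key2 a fun h5 => h0 (h5 ▸ ha)
      rw [Multiset.eq_replicate_card.2 h2, Multiset.sum_replicate, hc, nsmul_eq_mul, mul_one] at hs
      have h4 := (ZMod.natCast_eq_zero_iff _ _).1 hs
      omega
  refine ⟨1, one_pos, Nat.coprime_one_right p, ?_⟩
  have key : ∀ M : ℕ, M = m → ∃ E : Multiset (Multiset (ZMod M)),
    (∀ e ∈ E, (0 : ZMod M) ∉ e ∧ e.sum = 0 ∧ Multiset.card e = 3) ∧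
    Multiset.card E + 2 * ν + 2 = Multiset.card s ∧
    Generated M
      (fun t => SurfaceTate p M t ∨ ∃ q : ℕ, q.Prime ∧ q ∣ M ∧ Standard q M t)
      ((s.map fun a => ((1 * a.val : ℕ) : ZMod M)) + E.join.map Neg.neg) := by
    intro M hM
    subst hM
    have h1 : (1 : ZMod M) ≠ 0 := by
      have : Fact (1 < M) := ⟨by omega⟩
      exact one_ne_zero
    have h2 : (2 : ZMod M) ≠ 0 := by
      intro h5
      have h6 : ((2 : ℕ) : ZMod M) = 0 := by exact_mod_cast h5
      rw [ZMod.natCast_eq_zero_iff] at h6
      have := Nat.le_of_dvd (by norm_num) h6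
      omega
    refine ⟨{{1, 1, -2}}, ?_, ?_, ?_⟩
    · intro e he
      rw [Multiset.mem_singleton] at he
      subst he
      refine ⟨?_, ?_, by simp⟩
      · simp only [Multiset.insert_eq_cons, Multiset.mem_cons, Multiset.mem_singleton, not_or]
        exact ⟨h1.symm, h1.symm, fun h5 => h2 (neg_eq_zero.1 h5.symm)⟩
      · simp only [Multiset.insert_eq_cons, Multiset.sum_cons, Multiset.sum_singleton]
        ring
    · rw [Multiset.card_singleton, hc]
      ring
    · rw [map_val_id, Multiset.singleton_join]
      refine gen_mono (fun t ht => Or.inl ht) (super_generated hm hp h _ ?_ ?_ ?_)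
      · rw [Multiset.mem_add, not_or]
        refine ⟨h0, ?_⟩
        simp only [Multiset.insert_eq_cons, Multiset.map_cons, Multiset.map_singleton,
          Multiset.mem_cons, Multiset.mem_singleton, not_or, neg_neg]
        exact ⟨fun h5 => h1 (neg_eq_zero.1 h5.symm), fun h5 => h1 (neg_eq_zero.1 h5.symm), h2.symm⟩
      · rw [Multiset.sum_add, hs]
        simp only [Multiset.insert_eq_cons, Multiset.map_cons, Multiset.map_singleton,
          Multiset.sum_cons, Multiset.sum_singleton]
        ring
      · rw [Multiset.card_add, hc]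
        simp only [Multiset.insert_eq_cons, Multiset.map_cons, Multiset.map_singleton,
          Multiset.card_cons, Multiset.card_singleton]
        exact ⟨ν + 3, by ring⟩
  exact key (1 * m) (one_mul m)

end Pool.Agent.Zk8.FK
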