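import Pool.Agent.Zk8.FK.Trace

/-!
# The L-function of a product of diagonal hypersurfaces over a function field
-/

set_option autoImplicit false
set_option linter.all false

namespace Pool.Agent.Zk8.FK

open Finset FF Module
open Pool.Agent.Zk8.DH (PB PB_eval bad_factor order_zero qpow_cpow mprod_inv PB_map_inv coprime_of_card
  slopes_le)
open Pool.Agent.W484.BB (fac analyticAt_fac order_fac fac_eq_zero_iff norm_cpow_neg)

section

variable {k F : Type} [Field k] [Fintype k] [Field F] [Algebra k F] [IsFF k F]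
  {m r : ℕ} [NeZero m] {n μ : Fin r → ℕ} [∀ b, NeZero (μ b)]

/-- **The L-function**: continuation, Euler product and order of vanishing. -/
theorem assemble (hm : m ∣ Fintype.card k - 1) (hμ : ∀ b, μ b ∣ m) (χ : MulChar k ℂ)
    (hχ : orderOf χ = m) {ψ : AddChar k ℂ} (hψ : ψ ≠ 1) {i : ℕ} (hi : ∑ b, n b + 1 = 2 * i)
    (a : ∀ b, Fin (n b + 2) → F) (ha : ∀ b j, a b j ≠ 0)
    (S : Finset (Place k F)) (hS : ∀ v, v ∉ S → ∀ b j, v.ord (a b j) = 0)
    (A : Place k F → Multiset ℂ)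
    (hgood : ∀ v, v ∉ S → ∀ (E : Type) [Field E] [Fintype E] [Algebra v.RF E],
      ∏ b, ((-1) ^ n b * (({y : Fin (n b + 2) → E | y ≠ 0 ∧
      ∑ j, algebraMap v.RF E (v.red (a b j)) * y j ^ μ b = 0}.ncard : ℂ) /
      (Fintype.card E - 1) - ∑ l ∈ range (n b + 1), (Fintype.card E : ℂ) ^ l)) =
      ((A v).map fun α => α ^ finrank v.RF E).sum)
    (hbad : ∀ v, v ∈ S → ∀ α ∈ A v,
      ‖α‖ ^ 2 * (Fintype.card k : ℝ) ^ v.deg ≤ ((Fintype.card k : ℝ) ^ v.deg) ^ (2 * i))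
    (G : (∀ b, Fin (n b + 2) → ZMod (μ b)) → ℂ → ℂ) (o : (∀ b, Fin (n b + 2) → ZMod (μ b)) → ℕ)
    (hG : ∀ s ∈ lines n μ, ∀ x : ℂ, ‖x‖ * Fintype.card k < 1 →
      HasProd (fun v : Out S => (1 - kv χ⁻¹ (aps m a s) v.1 * x ^ v.1.deg)⁻¹) (G s x))
    (hG1 : ∀ s ∈ lines n μ, ∀ z : ℂ, MeromorphicAt
      (fun z : ℂ => G s (rho m χ ψ s * (Fintype.card k : ℂ) ^ (-z))) z)
    (hG2 : ∀ s ∈ lines n μ, meromorphicOrderAt
      (fun z : ℂ => G s (rho m χ ψ s * (Fintype.card k : ℂ) ^ (-z))) i = ((o s : ℕ) : ℤ)) :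
    ∃ Λ : ℂ → ℂ, (∀ z, MeromorphicAt Λ z) ∧
      (∀ z : ℂ, (i : ℝ) + 1 / 2 < z.re → HasProd (fun v : Place k F =>
        ((A v).map fun α => (1 - α * (((Fintype.card k ^ v.deg : ℕ) : ℂ)) ^ (-z))⁻¹).prod) (Λ z)) ∧
      meromorphicOrderAt Λ i = ((∑ s ∈ lines n μ, o s : ℕ) : ℤ) := by
  classical
  have hodd : Odd (∑ b, n b) := by
    rw [Nat.odd_iff]
    omega
  have hq1 : (1 : ℝ) < Fintype.card k := one_lt_q'
  have hq0 : (0 : ℝ) < Fintype.card k := by linarith
  set q : ℝ := (Fintype.card k : ℝ) with hq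
  have hqc : (Fintype.card k : ℂ) = (q : ℂ) := by rw [hq]; push_cast; rfl
  set H : ℂ → ℂ := fun z =>
    ∏ v ∈ S, ((A v).map fun α => (1 - α * ((q : ℂ) ^ (-z)) ^ v.deg)⁻¹).prod with hH
  set L : ℂ → ℂ := fun z => ∏ s ∈ lines n μ, G s (rho m χ ψ s * (q : ℂ) ^ (-z)) with hL
  rw [hqc] at hG1 hG2
  refine ⟨fun z => H z * L z, fun z => ?_, fun z hz => ?_, ?_⟩
  · refine MeromorphicAt.mul ?_ ?_
    · exact MeromorphicAt.fun_prod fun v _ => (bad_factor hq0 _ _).1 z
    · exact MeromorphicAt.fun_prod fun s hs => hG1 s hs z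
  · -- the Euler product
    have hX : ∀ s ∈ lines n μ, ‖rho m χ ψ s * (q : ℂ) ^ (-z)‖ * q < 1 := by
      intro s hs
      have h1 := norm_rho hμ χ hχ hψ hs
      have h2 := Pool.Agent.W484.BB.norm_of_sq q hq0 _ _ h1
      rw [norm_mul, norm_cpow_neg q hq0, h2, ← Real.rpow_add hq0]
      nth_rewrite 2 [← Real.rpow_one q]
      rw [← Real.rpow_add hq0]
      refine Real.rpow_lt_one_of_one_lt_of_neg hq1 ?_
      have h3 : ((∑ b, n b : ℕ) : ℝ) + 1 = 2 * i := by exact_mod_cast hi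
      linarith
    have h1 : HasProd (fun v : Out S => ∏ s ∈ lines n μ,
        (1 - kv χ⁻¹ (aps m a s) v.1 * (rho m χ ψ s * (q : ℂ) ^ (-z)) ^ v.1.deg)⁻¹) (L z) :=
      hasProd_prod fun s hs => hG s hs _ (hX s hs)
    have h1' : HasProd (fun v : Place k F => if v ∈ S then 1 else ∏ s ∈ lines n μ,
        (1 - kv χ⁻¹ (aps m a s) v * (rho m χ ψ s * (q : ℂ) ^ (-z)) ^ v.deg)⁻¹) (L z) := by
      have hinj : Function.Injective (Subtype.val : Out S → Place k F) := Subtype.val_injective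
      rw [← hinj.hasProd_iff]
      · convert h1 using 1
        funext v
        simp only [Function.comp]
        rw [if_neg v.2]
      · intro v hv
        rw [if_pos]
        by_contra h
        exact hv ⟨⟨v, h⟩, rfl⟩
    have h2 : HasProd (fun v : Place k F => if v ∈ S then
        ((A v).map fun α => (1 - α * ((q : ℂ) ^ (-z)) ^ v.deg)⁻¹).prod else 1)
        (∏ v ∈ S, ((A v).map fun α => (1 - α * ((q : ℂ) ^ (-z)) ^ v.deg)⁻¹).prod) := by
      have h3 : HasProd (fun v : Place k F => if v ∈ S then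
        ((A v).map fun α => (1 - α * ((q : ℂ) ^ (-z)) ^ v.deg)⁻¹).prod else 1)
        (∏ v ∈ S, if v ∈ S then ((A v).map fun α =>
          (1 - α * ((q : ℂ) ^ (-z)) ^ v.deg)⁻¹).prod else 1) :=
        hasProd_prod_of_ne_finset_one fun v hv => if_neg hv
      convert h3 using 1
      refine Finset.prod_congr rfl fun v hv => ?_
      rw [if_pos hv]
    have h3 := h2.mul h1'
    convert h3 using 1
    funext v
    simp only [qpow_cpow, hqc]
    by_cases hv : v ∈ S
    · rw [if_pos hv, if_pos hv, mul_one]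
    · rw [if_neg hv, if_neg hv, one_mul]
      have h5 := local_factor hm hμ χ hχ hψ hodd a ha v (hS v hv) (A v) (hgood v hv)
      rw [mprod_inv, h5, PB_map_inv]
      refine Finset.prod_congr rfl fun s _ => ?_
      rw [eig, mul_pow, mul_assoc]
  · -- the order
    have hqi : (q : ℂ) ^ (-(i : ℂ)) = ((q : ℂ) ^ i)⁻¹ := by
      rw [Complex.cpow_neg, Complex.cpow_natCast]
    have hne : ∀ (d : ℕ), 0 < d → ∀ α : ℂ, ‖α‖ ^ 2 * q ^ d ≤ (q ^ d) ^ (2 * i) →
        α * ((q : ℂ) ^ (-(i : ℂ))) ^ d ≠ 1 := by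
      intro d hd α hα h1
      have hQ : 1 < q ^ d := one_lt_pow₀ hq1 hd.ne'
      have hQi : 0 < (q ^ d) ^ (2 * i) := by positivity
      rw [hqi, inv_pow, ← div_eq_mul_inv, div_eq_one_iff_eq (pow_ne_zero _ (pow_ne_zero _
        (by exact_mod_cast hq0.ne')))] at h1
      have h2 : ‖α‖ ^ 2 = (q ^ d) ^ (2 * i) := by
        rw [h1, norm_pow, norm_pow, Complex.norm_real, Real.norm_of_nonneg hq0.le]
        ring
      rw [h2] at hα
      nlinarith
    have h1 : AnalyticAt ℂ H i ∧ H i ≠ 0 := by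
      have e1 : ∀ v ∈ S, _ := fun v hv => (bad_factor hq0 (A v) v.deg).2 (i : ℂ)
        fun α hα => hne _ (Nat.pos_of_ne_zero (dpos k F v)) α (hbad v hv α hα)
      refine ⟨?_, ?_⟩
      · exact Finset.analyticAt_fun_prod _ fun v hv => (e1 v hv).1
      · exact Finset.prod_ne_zero_iff.2 fun v hv => (e1 v hv).2
    have h2 : MeromorphicAt L i := MeromorphicAt.fun_prod fun s hs => hG1 s hs _
    rw [fun_meromorphicOrderAt_mul h1.1.meromorphicAt h2, order_zero h1.1 h1.2, zero_add, hL,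
      meromorphicOrderAt_fun_prod fun s hs => hG1 s hs _, Finset.sum_congr rfl hG2]
    push_cast
    rfl

end

section resid

variable {m r : ℕ} [NeZero m] {n μ : Fin r → ℕ} [∀ b, NeZero (μ b)]

/-- the multiset of all the residues of `s` -/
def resid (m : ℕ) {r : ℕ} {n μ : Fin r → ℕ} (s : ∀ b, Fin (n b + 2) → ZMod (μ b)) :
    Multiset (ZMod m) :=
  (Finset.univ : Finset (Σ b, Fin (n b + 2))).val.map fun x => ((ex m s x.1 x.2 : ℕ) : ZMod m)

lemma val_ex (hμ : ∀ b, μ b ∣ m) (s : ∀ b, Fin (n b + 2) → ZMod (μ b)) (b : Fin r)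
    (j : Fin (n b + 2)) : ((ex m s b j : ℕ) : ZMod m).val = ex m s b j := by
  rw [ZMod.val_natCast, Nat.mod_eq_of_lt (ex_lt hμ s b j)]

lemma resid_prod {M : Type*} [CommMonoid M] (hμ : ∀ b, μ b ∣ m)
    (s : ∀ b, Fin (n b + 2) → ZMod (μ b)) (f : ℕ → M) :
    ((resid m s).map fun a => f a.val).prod = ∏ b, ∏ j, f (ex m s b j) := by
  rw [resid, Multiset.map_map, Finset.prod_map_val, ← Finset.univ_sigma_univ, Finset.prod_sigma]
  refine Finset.prod_congr rfl fun b _ => Finset.prod_congr rfl fun j _ => ?_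
  simp only [Function.comp]
  rw [val_ex hμ]

lemma resid_card (s : ∀ b, Fin (n b + 2) → ZMod (μ b)) :
    Multiset.card (resid m s) = ∑ b, n b + 2 * r := by
  rw [resid, Multiset.card_map, Finset.card_val, Finset.card_univ, Fintype.card_sigma]
  simp only [Fintype.card_fin]
  rw [Finset.sum_add_distrib, Finset.sum_const, Finset.card_univ, Fintype.card_fin, smul_eq_mul,
    mul_comm r 2]

lemma resid_sum (hμ : ∀ b, μ b ∣ m) {s : ∀ b, Fin (n b + 2) → ZMod (μ b)} (hs : s ∈ lines n μ) :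
    (resid m s).sum = 0 := by
  rw [mem_lines] at hs
  rw [resid]
  have h1 : ((Finset.univ : Finset (Σ b, Fin (n b + 2))).val.map
      fun x => ((ex m s x.1 x.2 : ℕ) : ZMod m)).sum =
      ∑ x : (Σ b, Fin (n b + 2)), ((ex m s x.1 x.2 : ℕ) : ZMod m) := rfl
  rw [h1, ← Finset.univ_sigma_univ, Finset.sum_sigma]
  refine Finset.sum_eq_zero fun b _ => ?_
  have h2 : (μ b) ∣ ∑ j, (s b j).val := by
    rw [← ZMod.natCast_eq_zero_iff]
    push_cast
    simp only [ZMod.natCast_zmod_val]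
    exact (hs b).2
  simp only [ex]
  rw [← Nat.cast_sum, ← Finset.mul_sum, ZMod.natCast_eq_zero_iff]
  obtain ⟨c, hc⟩ := h2
  rw [hc, ← mul_assoc, Nat.div_mul_cancel (hμ b)]
  exact dvd_mul_right _ _

lemma resid_zero (hμ : ∀ b, μ b ∣ m) {s : ∀ b, Fin (n b + 2) → ZMod (μ b)} (hs : s ∈ lines n μ) :
    (0 : ZMod m) ∉ resid m s := by
  rw [resid, Multiset.mem_map]
  rintro ⟨x, -, h⟩
  have h1 := congrArg ZMod.val h
  rw [val_ex hμ, ZMod.val_zero] at h1
  exact (ex_pos hμ hs x.1 x.2).ne' h1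

end resid

section slopes

variable {k : Type} [Field k] [Fintype k] {p m r : ℕ} [Fact p.Prime] [CharP k p] [NeZero m]
  {n μ : Fin r → ℕ} [∀ b, NeZero (μ b)]

/-- integrality of the eigenvalue forces the lower bound of the slopes -/
theorem coniveau (hmk : m ∣ Fintype.card k - 1) (hμ : ∀ b, μ b ∣ m) (χ : MulChar k ℂ)
    (hχ : orderOf χ = m) {ψ : AddChar k ℂ} (hψ : ψ ≠ 1) {i : ℕ} (hi : ∑ b, n b + 1 = 2 * i)
    {s : ∀ b, Fin (n b + 2) → ZMod (μ b)} (hs : s ∈ lines n μ) {β : ℂ} (hβ : IsIntegral ℤ β)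
    (h : β * rho m χ ψ s = (Fintype.card k : ℂ) ^ i) (t : (ZMod m)ˣ) :
    orderOf (p : ZMod m) * (m * (i + r - 2 + 1)) ≤
      ∑ j ∈ Finset.range (orderOf (p : ZMod m)),
        ((resid m s).map fun a => ((p : ZMod m) ^ j * ((t : ZMod m) * a)).val).sum := by
  classical
  have hm0 : 0 < m := Nat.pos_of_ne_zero (NeZero.ne m)
  have hr : 1 ≤ r := by
    rcases Nat.eq_zero_or_pos r with h0 | h0
    · subst h0
      simp at hi
      omega
    · exact h0
  have hi1 : 1 ≤ i := by omega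
  have hq0 : (Fintype.card k : ℂ) ≠ 0 := by exact_mod_cast Fintype.card_ne_zero
  have h1 : ((resid m s).map fun a => gaussSum (χ ^ a.val) ψ).prod * (-β) =
      (Fintype.card k : ℂ) ^ (i + r) := by
    rw [resid_prod hμ s (fun a => gaussSum (χ ^ a) ψ), pow_add, ← h, rho]
    field_simp
  have h2 := slopes_le (p := p) hmk χ hχ ψ hψ (resid m s) (resid_zero hμ hs) (i + r) (-β) hβ.neg h1 (-t)
  set f := orderOf (p : ZMod m) with hf
  have hcop : Nat.Coprime p m := coprime_of_card (k := k) hmk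
  have hpu : ∀ j : ℕ, IsUnit ((p : ZMod m) ^ j) := fun j =>
    ((ZMod.isUnit_iff_coprime p m).2 hcop).pow j
  have h3 : ∀ a ∈ resid m s, ∑ j ∈ range f, ((p : ZMod m) ^ j * ((((-t : (ZMod m)ˣ)) : ZMod m) * a)).val
      + ∑ j ∈ range f, ((p : ZMod m) ^ j * ((t : ZMod m) * a)).val = f * m := by
    intro a ha
    rw [← Finset.sum_add_distrib]
    have h4 : ∀ j ∈ range f, ((p : ZMod m) ^ j * ((((-t : (ZMod m)ˣ)) : ZMod m) * a)).val +
        ((p : ZMod m) ^ j * ((t : ZMod m) * a)).val = m := by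
      intro j _
      have hne : (p : ZMod m) ^ j * ((t : ZMod m) * a) ≠ 0 := by
        intro h0
        have h5 := ((hpu j).mul_right_eq_zero).mp h0
        have h6 := (t.isUnit.mul_right_eq_zero).mp h5
        exact resid_zero hμ hs (h6 ▸ ha)
      have h5 : (p : ZMod m) ^ j * ((((-t : (ZMod m)ˣ)) : ZMod m) * a) =
          -((p : ZMod m) ^ j * ((t : ZMod m) * a)) := by
        rw [Units.val_neg]
        ring
      have : NeZero ((p : ZMod m) ^ j * ((t : ZMod m) * a)) := ⟨hne⟩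
      rw [h5, ZMod.val_neg_of_ne_zero]
      have := ZMod.val_lt ((p : ZMod m) ^ j * ((t : ZMod m) * a))
      omega
    rw [Finset.sum_congr rfl h4, Finset.sum_const, Finset.card_range, smul_eq_mul]
  have h4 : ((resid m s).map fun a => ∑ j ∈ range f,
      ((p : ZMod m) ^ j * ((((-t : (ZMod m)ˣ)) : ZMod m) * a)).val).sum +
      ((resid m s).map fun a => ∑ j ∈ range f, ((p : ZMod m) ^ j * ((t : ZMod m) * a)).val).sum =
      (∑ b, n b + 2 * r) * (f * m) := by
    rw [← Multiset.sum_map_add, Multiset.map_congr rfl h3, Multiset.map_const', Multiset.sum_replicate,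
      resid_card, smul_eq_mul]
  have h5 : ((resid m s).map fun a => ∑ j ∈ range f, ((p : ZMod m) ^ j * ((t : ZMod m) * a)).val).sum =
      ∑ j ∈ Finset.range f,
        ((resid m s).map fun a => ((p : ZMod m) ^ j * ((t : ZMod m) * a)).val).sum :=
    Multiset.sum_map_sum_map _ _
  rw [← h5]
  obtain ⟨e, he⟩ : ∃ e, ∑ b, n b = e ∧ e + 1 = 2 * i := ⟨_, rfl, hi⟩
  rw [he.1] at h4
  have h6 : i + r - 2 + 1 = i + r - 1 := by omega
  rw [h6]
  have h7 : f * (m * (i + r)) + f * (m * (i + r - 1)) = (e + 2 * r) * (f * m) := by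
    have h8 : i + r + (i + r - 1) = e + 2 * r := by omega
    rw [← h8]
    ring
  omega

end slopes

end Pool.Agent.Zk8.FK
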