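import Pool.Agent.H962R3.Cnt
import Pool.Agent.Zk8.DH.Newton
import Pool.Agent.H341R2.RootBound

/-!
# Power sums attached to a multiplicative function on the effective divisors
-/

set_option autoImplicit false
set_option linter.all false

namespace Pool.Agent.Zk8.FK

open PowerSeries Finset
open Pool.Agent.H962R3.Cnt Pool.Agent.H707R3

/-- the Euler operator -/
noncomputable def th (f : PowerSeries ℂ) : PowerSeries ℂ := X * d⁄dX ℂ f

lemma coeff_th (f : PowerSeries ℂ) (n : ℕ) : coeff n (th f) = n * coeff n f := by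
  unfold th
  rcases n with _ | n
  · rw [coeff_zero_X_mul]; simp
  · rw [coeff_succ_X_mul, coeff_derivative]
    push_cast
    ring

lemma th_mul (f g : PowerSeries ℂ) : th (f * g) = th f * g + f * th g := by
  unfold th
  rw [Derivation.leibniz, smul_eq_mul, smul_eq_mul]
  ring

lemma th_one : th 1 = 0 := by
  ext n
  rw [coeff_th, coeff_one, map_zero]
  split_ifs with h
  · rw [h]; simp
  · simp

/-- the series of one factor -/
noncomputable def G1 (a : ℂ) (d : ℕ) : PowerSeries ℂ :=
  PowerSeries.mk fun m => if m ≠ 0 ∧ d ∣ m then (d : ℂ) * a ^ (m / d) else 0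

lemma geom_mul (a : ℂ) {d : ℕ} (hd : d ≠ 0) : (1 - C a * X ^ d) * geom a d = 1 := by
  ext m
  have e : (1 - C a * X ^ d) * geom a d = geom a d - C a * (X ^ d * geom a d) := by ring
  rw [e, map_sub, coeff_C_mul, coeff_X_pow_mul', coeff_geom, coeff_one]
  by_cases hm : m = 0
  · subst hm
    simp [hd]
  rw [if_neg hm]
  by_cases hdm : d ≤ m
  · rw [if_pos hdm, coeff_geom]
    have e : d ∣ m - d ↔ d ∣ m := by
      rw [Nat.dvd_sub_iff_left hdm dvd_rfl]
    simp only [e]
    split_ifs with h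
    · obtain ⟨j, rfl⟩ := h
      have hj : j ≠ 0 := by
        rintro rfl
        simp at hm
      obtain ⟨i, rfl⟩ := Nat.exists_eq_succ_of_ne_zero hj
      have h1 : d * (i + 1) - d = d * i := by rw [mul_add, mul_one, Nat.add_sub_cancel]
      rw [Nat.succ_eq_add_one, h1, Nat.mul_div_cancel_left _ (Nat.pos_of_ne_zero hd),
        Nat.mul_div_cancel_left _ (Nat.pos_of_ne_zero hd), pow_succ]
      ring
    · simp
  · rw [if_neg hdm]
    have h1 : ¬ d ∣ m := fun h => hdm (Nat.le_of_dvd (Nat.pos_of_ne_zero hm) h)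
    rw [if_neg h1]
    simp

lemma G1_eq (a : ℂ) {d : ℕ} (hd : d ≠ 0) : G1 a d = C ((d : ℂ) * a) * (X ^ d * geom a d) := by
  ext m
  rw [coeff_C_mul, coeff_X_pow_mul', G1, coeff_mk]
  by_cases hdm : d ≤ m
  · rw [if_pos hdm, coeff_geom]
    have e : d ∣ m - d ↔ d ∣ m := by
      rw [Nat.dvd_sub_iff_left hdm dvd_rfl]
    have hm : m ≠ 0 := by omega
    simp only [e, hm, ne_eq, not_false_eq_true, true_and]
    split_ifs with h
    · obtain ⟨j, rfl⟩ := h
      have hj : j ≠ 0 := by
        rintro rfl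
        simp at hm
      obtain ⟨i, rfl⟩ := Nat.exists_eq_succ_of_ne_zero hj
      have h1 : d * (i + 1) - d = d * i := by rw [mul_add, mul_one, Nat.add_sub_cancel]
      rw [Nat.succ_eq_add_one, h1, Nat.mul_div_cancel_left _ (Nat.pos_of_ne_zero hd),
        Nat.mul_div_cancel_left _ (Nat.pos_of_ne_zero hd), pow_succ]
      ring
    · simp
  · rw [if_neg hdm, mul_zero, if_neg]
    rintro ⟨h1, h2⟩
    exact hdm (Nat.le_of_dvd (Nat.pos_of_ne_zero h1) h2)

lemma th_lin (a : ℂ) {d : ℕ} (hd : d ≠ 0) : th (1 - C a * X ^ d) = -(C ((d : ℂ) * a) * X ^ d) := by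
  ext m
  rw [coeff_th, map_sub, map_neg, coeff_C_mul, coeff_C_mul, coeff_one, coeff_X_pow]
  by_cases hm : m = 0
  · subst hm
    simp [Ne.symm hd]
  · rw [if_neg hm]
    split_ifs with h
    · rw [h]; ring
    · simp

lemma th_geom (a : ℂ) {d : ℕ} (hd : d ≠ 0) : th (geom a d) = geom a d * G1 a d := by
  have h1 := congrArg th (geom_mul a hd)
  rw [th_mul, th_one, th_lin a hd] at h1
  have h2 := geom_mul a hd
  rw [G1_eq a hd]
  -- multiply by `geom`
  have h3 : geom a d * (-(C ((d : ℂ) * a) * X ^ d) * geom a d + (1 - C a * X ^ d) * th (geom a d)) = 0 := by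
    rw [h1, mul_zero]
  have h4 : geom a d * (-(C ((d : ℂ) * a) * X ^ d) * geom a d + (1 - C a * X ^ d) * th (geom a d)) =
      ((1 - C a * X ^ d) * geom a d) * th (geom a d) -
        geom a d * (C ((d : ℂ) * a) * (X ^ d * geom a d)) := by ring
  rw [h4, h2, one_mul, sub_eq_zero] at h3
  exact h3

section

variable {ι : Type} (d : ι → ℕ) (hd : ∀ v, d v ≠ 0) (hfin : ∀ k, {v | d v ≤ k}.Finite) (a : ι → ℂ)

include hd in
lemma th_prod (s : Finset ι) :
    th (∏ v ∈ s, geom (a v) (d v)) = (∏ v ∈ s, geom (a v) (d v)) * ∑ v ∈ s, G1 (a v) (d v) := by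
  classical
  induction s using Finset.induction_on with
  | empty => rw [Finset.prod_empty, Finset.sum_empty, mul_zero, th_one]
  | insert b s hb ih =>
    rw [Finset.prod_insert hb, Finset.sum_insert hb, th_mul, ih, th_geom _ (hd b)]
    ring

lemma geom_mod (a : ℂ) (d n : ℕ) (h : n < d) : (X : PowerSeries ℂ) ^ (n + 1) ∣ geom a d - 1 := by
  rw [X_pow_dvd_iff]
  intro m hm
  rw [map_sub, coeff_geom, coeff_one]
  by_cases h0 : m = 0
  · subst h0
    simp
  · rw [if_neg h0, if_neg, sub_zero]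
    intro h1
    have := Nat.le_of_dvd (Nat.pos_of_ne_zero h0) h1
    omega

lemma coeff_prod_le {n N : ℕ} (h : n ≤ N) :
    coeff n (∏ v ∈ (hfin N).toFinset, geom (a v) (d v)) =
      coeff n (∏ v ∈ (hfin n).toFinset, geom (a v) (d v)) := by
  classical
  have hsub : (hfin n).toFinset ⊆ (hfin N).toFinset := by
    intro v hv
    rw [Set.Finite.mem_toFinset] at hv ⊢
    exact le_trans hv h
  rw [← Finset.prod_sdiff hsub]
  have h1 : (X : PowerSeries ℂ) ^ (n + 1) ∣
      (∏ v ∈ (hfin N).toFinset \ (hfin n).toFinset, geom (a v) (d v)) - 1 := by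
    have h2 : ∀ s : Finset ι, (∀ v ∈ s, n < d v) →
        (X : PowerSeries ℂ) ^ (n + 1) ∣ (∏ v ∈ s, geom (a v) (d v)) - 1 := by
      intro s
      induction s using Finset.induction_on with
      | empty => intro _; simp
      | insert b s hb ih =>
        intro h3
        rw [Finset.prod_insert hb]
        have h4 := ih fun v hv => h3 v (Finset.mem_insert_of_mem hv)
        have h5 := geom_mod (a b) (d b) n (h3 b (Finset.mem_insert_self b s))
        have e : geom (a b) (d b) * ∏ v ∈ s, geom (a v) (d v) - 1 =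
          (geom (a b) (d b) - 1) * ∏ v ∈ s, geom (a v) (d v) +
            ((∏ v ∈ s, geom (a v) (d v)) - 1) := by ring
        rw [e]
        exact dvd_add (h5.mul_right _) h4
    refine h2 _ fun v hv => ?_
    rw [Finset.mem_sdiff, Set.Finite.mem_toFinset, Set.Finite.mem_toFinset] at hv
    exact not_le.1 hv.2
  obtain ⟨R, hR⟩ := h1
  rw [sub_eq_iff_eq_add.1 hR, add_mul, one_mul, map_add, mul_assoc, coeff_X_pow_mul', if_neg (by omega),
    zero_add]

/-- the sum of a function over the effective divisors of degree `n` -/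
noncomputable def cf (n : ℕ) : ℂ := ∑ D ∈ (eff_finite d hd hfin n).toFinset, Val a D

include hfin in
lemma dvd_finite (m : ℕ) (hm : 0 < m) : {v | d v ∣ m}.Finite :=
  (hfin m).subset fun v hv => Nat.le_of_dvd hm hv

/-- the sum over the places whose degree divides `m` -/
noncomputable def TT (m : ℕ) : ℂ :=
  open Classical in ∑ v ∈ (hfin m).toFinset, if d v ∣ m then (d v : ℂ) * a v ^ (m / d v) else 0

lemma TT_eq (m : ℕ) (hm : 0 < m) :
    TT d hfin a m = ∑ v ∈ (dvd_finite d hfin m hm).toFinset, (d v : ℂ) * a v ^ (m / d v) := by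
  classical
  unfold TT
  rw [← Finset.sum_filter]
  refine Finset.sum_congr ?_ fun v _ => rfl
  ext v
  rw [Finset.mem_filter, Set.Finite.mem_toFinset, Set.Finite.mem_toFinset]
  exact ⟨fun h => h.2, fun h => ⟨Nat.le_of_dvd hm h, h⟩⟩

lemma TT_finsum (m : ℕ) (hm : 0 < m) :
    TT d hfin a m = ∑ᶠ v, open Classical in if d v ∣ m then (d v : ℂ) * a v ^ (m / d v) else 0 := by
  classical
  unfold TT
  symm
  refine (finsum_eq_sum_of_support_subset _ ?_).trans (Finset.sum_congr rfl fun v _ => by congr)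
  intro v hv
  rw [Function.mem_support] at hv
  rw [Set.Finite.coe_toFinset]
  by_contra h
  apply hv
  exact if_neg fun h1 => h (Nat.le_of_dvd hm h1)

theorem newton_id (n : ℕ) :
    (n : ℂ) * cf d hd hfin a n = ∑ m ∈ Icc 1 n, cf d hd hfin a (n - m) * TT d hfin a m := by
  classical
  have h1 : ∀ i, i ≤ n → coeff i (∏ v ∈ (hfin n).toFinset, geom (a v) (d v)) = cf d hd hfin a i := by
    intro i hi
    rw [coeff_prod_le d hfin a hi, coeff_prod_geom d hd hfin]
    rfl
  rw [← h1 n le_rfl, ← coeff_th, th_prod d hd, coeff_mul,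
    Finset.Nat.sum_antidiagonal_eq_sum_range_succ_mk]
  rw [← Finset.sum_range_reflect]
  have h5 : (Finset.range (n + 1)).filter (fun m => m ≠ 0) = Finset.Icc 1 n := by
    ext m
    simp only [Finset.mem_filter, Finset.mem_range, Finset.mem_Icc]
    omega
  rw [← h5, Finset.sum_filter]
  refine Finset.sum_congr rfl fun m hm => ?_
  rw [Finset.mem_range] at hm
  have e1 : n + 1 - 1 - m = n - m := by omega
  have e2 : n - (n - m) = m := by omega
  simp only [e1, e2]
  rw [h1 _ (by omega)]
  have h6 : coeff m (∑ v ∈ (hfin n).toFinset, G1 (a v) (d v)) = if m ≠ 0 then TT d hfin a m else 0 := by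
    rw [map_sum]
    split_ifs with h0
    · unfold TT
      have h3 : (hfin m).toFinset ⊆ (hfin n).toFinset := by
        intro v hv
        rw [Set.Finite.mem_toFinset] at hv ⊢
        have : d v ≤ m := hv
        change d v ≤ n
        omega
      rw [← Finset.sum_subset h3]
      · refine Finset.sum_congr rfl fun v _ => ?_
        rw [G1, coeff_mk]
        simp only [ne_eq, h0, not_false_eq_true, true_and]
      · intro v _ hv
        rw [G1, coeff_mk, if_neg]
        rintro ⟨h4, h5⟩
        apply hv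
        rw [Set.Finite.mem_toFinset]
        exact Nat.le_of_dvd (Nat.pos_of_ne_zero h4) h5
    · push Not at h0
      refine Finset.sum_eq_zero fun v _ => ?_
      rw [G1, coeff_mk, if_neg]
      exact fun h => h.1 h0
  rw [h6]
  split_ifs <;> simp

lemma cf_zero : cf d hd hfin a 0 = 1 := by
  unfold cf
  rw [← coeff_prod_geom d hd hfin]
  have : (hfin 0).toFinset = ∅ := by
    rw [Finset.eq_empty_iff_forall_notMem]
    intro v hv
    rw [Set.Finite.mem_toFinset] at hv
    exact hd v (Nat.le_zero.1 hv)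
  rw [this, Finset.prod_empty, coeff_one, if_pos rfl]

open Polynomial in
/-- **The trace formula**: if the sums over the effective divisors of large degree vanish, the power
sums come from finitely many eigenvalues. -/
theorem exists_eigen (q : ℝ) (hq : 0 < q)
    (hC : ∀ r : ℝ, q < r → ∃ C : ℝ, 0 ≤ C ∧ ∀ m : ℕ, 1 ≤ m → ‖TT d hfin a m‖ ≤ C * r ^ m)
    (hint : ∀ v, IsIntegral ℤ (a v)) (n0 : ℕ) (h : ∀ n, n0 ≤ n → cf d hd hfin a n = 0) :
    ∃ B : Multiset ℂ, (∀ β ∈ B, IsIntegral ℤ β ∧ ‖β‖ ≤ q) ∧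
      ∀ m : ℕ, 1 ≤ m → TT d hfin a m = -(B.map fun β => β ^ m).sum := by
  classical
  set P : ℂ[X] := ∑ n ∈ range n0, Polynomial.monomial n (cf d hd hfin a n) with hP
  have hcoef : ∀ n, P.coeff n = cf d hd hfin a n := by
    intro n
    rw [hP, Polynomial.finsetSum_coeff]
    simp only [Polynomial.coeff_monomial]
    by_cases hn : n < n0
    · rw [Finset.sum_eq_single n]
      · rw [if_pos rfl]
      · intro j _ hj
        rw [if_neg hj]
      · intro h1
        exact absurd (mem_range.2 hn) h1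
    · rw [h n (by omega)]
      apply Finset.sum_eq_zero
      intro j hj
      rw [mem_range] at hj
      rw [if_neg (by omega)]
  have h0 : P.coeff 0 = 1 := by rw [hcoef, cf_zero]
  have hid : ∀ n : ℕ, (n : ℂ) * P.coeff n =
      ∑ m ∈ Icc 1 n, P.coeff (n - m) * TT d hfin a m := by
    intro n
    simp only [hcoef]
    exact newton_id d hd hfin a n
  have hcint : ∀ n, IsIntegral ℤ (P.coeff n) := by
    intro n
    rw [hcoef]
    unfold cf
    refine IsIntegral.sum _ fun D hD => ?_
    rw [Set.Finite.mem_toFinset] at hD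
    unfold Val
    rw [Finsupp.prod]
    refine IsIntegral.prod _ fun v _ => ?_
    obtain ⟨j, hj⟩ := Int.eq_ofNat_of_zero_le (hD.1 v)
    rw [hj]
    simp only [zpow_natCast]
    exact (hint v).pow j
  obtain ⟨B, hB1, hB2, hB3⟩ := Pool.Agent.Zk8.DH.exists_PB P h0
  refine ⟨B, fun β hβ => ⟨hB3 hcint β hβ, ?_⟩, fun m hm => ?_⟩
  · obtain ⟨hβ0, hz⟩ := hB2 β hβ
    refine le_of_forall_gt_imp_ge_of_dense fun r hr => ?_
    obtain ⟨C, hC0, hC1⟩ := hC r hr
    have h1 := Pool.Agent.H341R2.Sharp.root_norm P h0 (TT d hfin a) r C (hq.trans hr) hC0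
      hC1 hid _ hz
    rw [norm_inv] at h1
    have h2 : 0 < ‖β‖ := norm_pos_iff.2 hβ0
    rw [← div_eq_mul_inv, le_div_iff₀ h2, one_mul] at h1
    exact h1
  · refine Pool.Agent.Zk8.DH.rec_unique P h0 (TT d hfin a) (fun m => -(B.map fun β => β ^ m).sum) hid
      (fun n => ?_) m hm
    have h1 := Pool.Agent.Zk8.DH.newton B n
    rw [← hB1] at h1
    exact h1

end

end Pool.Agent.Zk8.FK
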