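import Pool.Agent.R410.PW.Newt
import Pool.Agent.Zk8.FK.Gen
import Pool.Agent.Zk8.DH.EP

/-!
# Bounds for the number of places and the zeta function of a function field
-/

set_option autoImplicit false
set_option linter.all false

namespace Pool.Agent.Zk8.FK

open Finset FF
open Pool.Agent.H962R3.Cnt

lemma nat_mul_pow_le {x : ℝ} (h0 : 0 ≤ x) (h1 : x < 1) (m : ℕ) : (m : ℝ) * x ^ m ≤ (1 - x)⁻¹ := by
  have h2 : (m : ℝ) * x ^ m ≤ ∑ j ∈ range m, x ^ j := by
    have h3 : ∀ j ∈ range m, x ^ m ≤ x ^ j := by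
      intro j hj
      rw [mem_range] at hj
      exact pow_le_pow_of_le_one h0 h1.le hj.le
    have h4 := Finset.sum_le_sum h3
    rw [Finset.sum_const, Finset.card_range, nsmul_eq_mul] at h4
    exact h4
  refine h2.trans ?_
  have h5 := (summable_geometric_of_lt_one h0 h1).sum_le_tsum (range m) (fun j _ => pow_nonneg h0 j)
  rwa [tsum_geometric_of_lt_one h0 h1] at h5

section

variable {ι : Type} (d : ι → ℕ) (hd : ∀ v, d v ≠ 0) (hfin : ∀ k, {v | d v ≤ k}.Finite)

include hd in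
/-- the sum of the degrees dividing `m` is at most `m` times the number of effective divisors -/
lemma sum_le_card (m : ℕ) (hm : 0 < m) :
    (∑ v ∈ (dvd_finite d hfin m hm).toFinset, (d v : ℝ)) ≤ m * Nat.card (Eff d m) := by
  classical
  have h1 : (∑ v ∈ (dvd_finite d hfin m hm).toFinset, (d v : ℝ)) ≤
      ∑ v ∈ (dvd_finite d hfin m hm).toFinset, (m : ℝ) := by
    refine Finset.sum_le_sum fun v hv => ?_
    rw [Set.Finite.mem_toFinset] at hv
    exact_mod_cast Nat.le_of_dvd hm hv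
  refine h1.trans ?_
  rw [Finset.sum_const, nsmul_eq_mul, mul_comm]
  refine mul_le_mul_of_nonneg_left ?_ (Nat.cast_nonneg _)
  have hE := eff_finite d hd hfin m
  rw [Nat.card_coe_set_eq, ← Set.ncard_eq_toFinset_card _ (dvd_finite d hfin m hm)]
  norm_cast
  refine Set.ncard_le_ncard_of_injOn (fun v => Finsupp.single v ((m / d v : ℕ) : ℤ)) ?_ ?_ hE
  · intro v hv
    have hv' : d v ∣ m := hv
    refine ⟨?_, ?_⟩
    · exact Finsupp.single_nonneg.2 (Int.natCast_nonneg _)
    · unfold Deg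
      rw [Finsupp.sum_single_index (by simp)]
      exact_mod_cast Nat.div_mul_cancel hv'
  · intro v hv w hw h
    have hv' : d v ∣ m := hv
    have h2 : ((m / d v : ℕ) : ℤ) ≠ 0 := by
      have := Nat.div_pos (Nat.le_of_dvd hm hv') (Nat.pos_of_ne_zero (hd v))
      omega
    exact (Finsupp.single_left_inj h2).1 (by
      have h3 := congrArg (fun D : ι →₀ ℤ => D v) h
      simp only [Finsupp.single_eq_same] at h3
      by_cases hvw : w = v
      · rw [hvw]
      · rw [Finsupp.single_eq_of_ne (Ne.symm hvw)] at h3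
        exact absurd h3 h2)

end

section

variable (k F : Type) [Field k] [Finite k] [Field F] [Algebra k F] [IsFF k F]

lemma dpos (v : Place k F) : v.deg ≠ 0 := (Pool.Agent.H525R3.FFp.deg_pos v).ne'

lemma pfin (n : ℕ) : {P : Place k F | P.deg ≤ n}.Finite := Pool.Agent.H107R3.ZT.places_finite n

lemma one_lt_card : (1 : ℝ) < Nat.card k := by exact_mod_cast Finite.one_lt_card

/-- the number of places -/
theorem count (r : ℝ) (hr : (Nat.card k : ℝ) < r) : ∃ C : ℝ, 0 ≤ C ∧ ∀ m (hm : 0 < m),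
    (∑ v ∈ (dvd_finite (fun v : Place k F => v.deg) (pfin k F) m hm).toFinset, (v.deg : ℝ)) ≤
      C * r ^ m := by
  obtain ⟨C, hC⟩ := Pool.Agent.H107R3.ZT.taskUp k F
  have hq := one_lt_card k
  set q : ℝ := (Nat.card k : ℝ) with hqd
  have hr0 : 0 < r := by linarith
  have hx0 : 0 ≤ q / r := by positivity
  have hx1 : q / r < 1 := (div_lt_one hr0).2 hr
  refine ⟨C * (1 - q / r)⁻¹, mul_nonneg (Nat.cast_nonneg _) (inv_nonneg.2 (by linarith)), fun m hm => ?_⟩
  have h1 := sum_le_card (fun v : Place k F => v.deg) (dpos k F) (pfin k F) m hm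
  have h2 : (Nat.card (Eff (fun v : Place k F => v.deg) m) : ℝ) ≤ C * q ^ m := by
    rw [Pool.Agent.W343.BSD.card_eff]
    have h : ((Pool.Agent.H387R3.ZT.bnum k F m : ℕ) : ℝ) ≤ C * q ^ m := by
      rw [hqd]
      exact_mod_cast hC m
    exact h
  have h3 := nat_mul_pow_le hx0 hx1 m
  calc (∑ v ∈ (dvd_finite (fun v : Place k F => v.deg) (pfin k F) m hm).toFinset, (v.deg : ℝ))
      ≤ m * (C * q ^ m) := h1.trans (mul_le_mul_of_nonneg_left h2 (Nat.cast_nonneg _))
    _ = C * ((m : ℝ) * (q / r) ^ m) * r ^ m := by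
        rw [div_pow]
        field_simp
    _ ≤ C * (1 - q / r)⁻¹ * r ^ m := by
        refine mul_le_mul_of_nonneg_right ?_ (by positivity)
        exact mul_le_mul_of_nonneg_left h3 (Nat.cast_nonneg _)

open Polynomial in
/-- the zeta function: the number of points -/
theorem zeta (hconst : ∀ a : F, IsAlgebraic k a → a ∈ (algebraMap k F).range) :
    ∃ Z : Multiset ℂ, (∀ γ ∈ Z, IsIntegral ℤ γ ∧ ‖γ‖ ≤ Nat.card k) ∧ ∀ m (hm : 0 < m),
      (∑ v ∈ (dvd_finite (fun v : Place k F => v.deg) (pfin k F) m hm).toFinset, (v.deg : ℂ)) =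
        1 + (Nat.card k : ℂ) ^ m - (Z.map fun γ => γ ^ m).sum := by
  classical
  obtain ⟨P, hP, -⟩ := Pool.Agent.W343.BSD.exists_num k F hconst
  obtain ⟨h0, hN⟩ := Pool.Agent.R410.PW.newton k F P hP
  set Q : ℂ[X] := P.map (Int.castRingHom ℂ) with hQ
  set N : ℕ → ℕ := fun m => Pool.Agent.R410.PW.NN (fun v : Place k F => v.deg)
    (fun n => Pool.Agent.H107R3.ZT.places_finite n) m with hNd
  set S : ℕ → ℂ := fun m => (N m : ℂ) - 1 - (Nat.card k : ℂ) ^ m with hS
  have hNsum : ∀ m (hm : 0 < m), ∑ v ∈ (dvd_finite (fun v : Place k F => v.deg) (pfin k F) m hm).toFinset,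
      v.deg = N m := by
    intro m hm
    simp only [hNd]
    unfold Pool.Agent.R410.PW.NN
    refine Finset.sum_congr ?_ fun v _ => rfl
    ext v
    rw [Finset.mem_filter, Set.Finite.mem_toFinset, Set.Finite.mem_toFinset]
    exact ⟨fun h => ⟨Nat.le_of_dvd hm h, h⟩, fun h => h.2⟩
  have hQ0 : Q.coeff 0 = 1 := by rw [hQ, coeff_map, h0]; simp
  have hid : ∀ n : ℕ, (n : ℂ) * Q.coeff n = ∑ m ∈ Finset.Icc 1 n, Q.coeff (n - m) * S m := by
    intro n
    have h1 := congrArg (fun z : ℤ => (z : ℂ)) (hN n)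
    simp only [Int.cast_mul, Int.cast_sum, Int.cast_sub, Int.cast_one, Int.cast_pow,
      Int.cast_natCast] at h1
    simp only [hQ, coeff_map, eq_intCast, hS]
    exact h1
  obtain ⟨Z, hZ1, hZ2, hZ3⟩ := Pool.Agent.Zk8.DH.exists_PB Q hQ0
  have hq := one_lt_card k
  have hpow : ∀ m, 1 ≤ m → S m = -(Z.map fun γ => γ ^ m).sum := by
    intro m hm
    refine Pool.Agent.Zk8.DH.rec_unique Q hQ0 S (fun m => -(Z.map fun γ => γ ^ m).sum) hid
      (fun n => ?_) m hm
    have h1 := Pool.Agent.Zk8.DH.newton Z n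
    rw [← hZ1] at h1
    exact h1
  refine ⟨Z, fun γ hγ => ⟨hZ3 (fun n => ?_) γ hγ, ?_⟩, fun m hm => ?_⟩
  · rw [hQ, coeff_map, eq_intCast]
    exact isIntegral_algebraMap (R := ℤ) (A := ℂ) (x := P.coeff n)
  · obtain ⟨hγ0, hz⟩ := hZ2 γ hγ
    refine le_of_forall_gt_imp_ge_of_dense fun r hr => ?_
    obtain ⟨C, hC0, hC1⟩ := count k F r hr
    have hr0 : 0 < r := by linarith
    have h1 := Pool.Agent.H341R2.Sharp.root_norm Q hQ0 S r (C + 1 + 1) hr0 (by positivity)
      (fun m hm => ?_) hid _ hz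
    · rw [norm_inv] at h1
      have h2 : 0 < ‖γ‖ := norm_pos_iff.2 hγ0
      rw [← div_eq_mul_inv, le_div_iff₀ h2, one_mul] at h1
      exact h1
    · have e1 : ‖(N m : ℂ)‖ ≤ C * r ^ m := by
        rw [Complex.norm_natCast, ← hNsum m hm]
        push_cast
        exact hC1 m hm
      have e2 : ‖(1 : ℂ)‖ ≤ 1 * r ^ m := by
        rw [norm_one, one_mul]
        exact one_le_pow₀ (by linarith)
      have e3 : ‖(Nat.card k : ℂ) ^ m‖ ≤ 1 * r ^ m := by
        rw [norm_pow, Complex.norm_natCast, one_mul]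
        exact pow_le_pow_left₀ (by linarith) hr.le m
      calc ‖S m‖ ≤ ‖(N m : ℂ)‖ + ‖(1 : ℂ)‖ + ‖(Nat.card k : ℂ) ^ m‖ :=
            (norm_sub_le _ _).trans (add_le_add (norm_sub_le _ _) le_rfl)
        _ ≤ (C + 1 + 1) * r ^ m := by linarith
  · have h1 := hpow m hm
    have h2 : (∑ v ∈ (dvd_finite (fun v : Place k F => v.deg) (pfin k F) m hm).toFinset, (v.deg : ℂ)) =
        (N m : ℂ) := by
      rw [← hNsum m hm]
      push_cast
      rfl
    rw [h2]
    simp only [hS] at h1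
    linear_combination h1

end

end Pool.Agent.Zk8.FK
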