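import Pool.Agent.Zk8.FK.Recip
import Pool.Agent.Zk8.FK.Bound
import Pool.Agent.Zk8.DH.LFun

/-!
# Kummer characters of function fields over finite fields
-/

set_option autoImplicit false
set_option linter.all false

namespace Pool.Agent.Zk8.FK

open Finset FF Module
open Pool.Agent.H962R3.Cnt Pool.Agent.H962R3.App
open Pool.Agent.Zk8.DH (mc_norm mc_norm_le mc_integral mc_cases)

section

variable {k F : Type} [Field k] [Fintype k] [Field F] [Algebra k F] [IsFF k F]

/-- the places outside the finite set `S` -/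
abbrev Out (S : Finset (Place k F)) : Type := {P : Place k F // P ∉ S}

lemma opos (S : Finset (Place k F)) (v : Out S) : v.1.deg ≠ 0 := dpos k F v.1

lemma ofin (S : Finset (Place k F)) (n : ℕ) : {P : Out S | P.1.deg ≤ n}.Finite :=
  (pfin k F n).preimage Subtype.val_injective.injOn

/-- the value of the Kummer character of `a` -/
noncomputable def kv (χ : MulChar k ℂ) (a : F) (v : Place k F) : ℂ := χ (nv a v)

variable (χ : MulChar k ℂ) (S : Finset (Place k F)) (a : F) (ha : a ≠ 0)
  (hS : ∀ v : Place k F, v.ord a ≠ 0 → v ∈ S)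

lemma chi_inv (χ : MulChar k ℂ) (x : k) : χ x⁻¹ = (χ x)⁻¹ := by
  by_cases hx : x = 0
  · rw [hx, inv_zero, MulChar.map_zero, inv_zero]
  · have h1 : χ x⁻¹ * χ x = 1 := by rw [← map_mul, inv_mul_cancel₀ hx, map_one]
    exact eq_inv_of_mul_eq_one_left h1

include ha hS in
lemma kv_norm (v : Out S) : ‖kv χ a v.1‖ = 1 := by
  classical
  refine mc_norm χ (nv_ne_zero ha ?_)
  by_contra h
  exact v.2 (hS v.1 h)

include ha hS in
lemma kv_ne_zero (v : Out S) : kv χ a v.1 ≠ 0 := by
  intro h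
  have := kv_norm χ S a ha hS v
  rw [h, norm_zero] at this
  exact zero_ne_one this

include ha hS in
/-- **the reciprocity law** -/
lemma val_dv (hne : S.Nonempty) (h : Hg (k := k) S 1 le_rfl) :
    Val (fun v : Out S => kv χ a v.1) (dv (Pool.Agent.H962R3.WeilL.rr k F) h) = 1 := by
  classical
  have h1 := recip (k := k) (S : Set (Place k F)) hne a ha (fun v hv => hS v hv) (h.1 : F)
    h.1.ne_zero (by
      intro v hv
      rcases h.2 v hv with h2 | h2
      · exact Or.inl h2
      · right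
        push_cast at h2
        omega)
  have hout : ∀ v : Place k F, v ∈ S → v.ord (h.1 : F) = 0 := fun v hv => ord_eq_zero_of_mem h.2 hv
  -- the product over the places
  have hsup : (Function.mulSupport fun v : Place k F => nv a v ^ v.ord (h.1 : F)).Finite :=
    fin_supp (h.1 : F) _ fun v hv => by rw [hv, zpow_zero]
  set D := dv (Pool.Agent.H962R3.WeilL.rr k F) h with hD
  have hDv : ∀ v : Out S, D v = v.1.ord (h.1 : F) := fun v => dv_apply _ h v
  have hprod : (∏ v ∈ D.support, nv a v.1 ^ D v) = 1 := by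
    rw [← h1]
    have h2 : (∏ v ∈ D.support, nv a v.1 ^ D v) =
        ∏ v ∈ D.support.map ⟨Subtype.val, Subtype.val_injective⟩, nv a v ^ v.ord (h.1 : F) := by
      rw [Finset.prod_map]
      exact Finset.prod_congr rfl fun v _ => by rw [hDv]; rfl
    rw [h2]
    symm
    refine finprod_eq_prod_of_mulSupport_subset _ ?_
    intro v hv
    rw [Function.mem_mulSupport] at hv
    have h3 : v.ord (h.1 : F) ≠ 0 := by
      intro h0
      apply hv
      rw [h0, zpow_zero]
    have h4 : v ∉ S := fun h5 => h3 (hout v h5)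
    rw [Finset.coe_map, Set.mem_image]
    refine ⟨⟨v, h4⟩, ?_, rfl⟩
    rw [Finset.mem_coe, Finsupp.mem_support_iff, hDv]
    exact h3
  unfold Val
  rw [Finsupp.prod]
  have h3 : ∀ v ∈ D.support, kv χ a v.1 ^ D v = χ (nv a v.1 ^ D v) := by
    intro v _
    unfold kv
    generalize D v = z
    cases z with
    | ofNat j => simp [map_pow]
    | negSucc j => rw [zpow_negSucc, zpow_negSucc, chi_inv, map_pow]
  rw [Finset.prod_congr rfl h3, ← map_prod, hprod, map_one]

lemma norm_val_one {ι : Type} (w : ι → ℂ) (hw : ∀ v, ‖w v‖ = 1) (D : ι →₀ ℤ) : ‖Val w D‖ = 1 := by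
  unfold Val
  rw [Finsupp.prod, norm_prod]
  refine Finset.prod_eq_one fun v _ => ?_
  rw [norm_zpow, hw, one_zpow]

lemma val_zsmul {ι : Type} (w : ι → ℂ) (hw : ∀ v, w v ≠ 0) (D : ι →₀ ℤ) (n : ℤ) :
    Val w (n • D) = Val w D ^ n := by
  have h0 : Val w 0 = 1 := by simp [Val]
  have hneg : ∀ E : ι →₀ ℤ, Val w (-E) = (Val w E)⁻¹ := by
    intro E
    have h1 := Val_add w hw (-E) E
    rw [neg_add_cancel, h0] at h1
    exact eq_inv_of_mul_eq_one_left h1.symm
  have hnat : ∀ (E : ι →₀ ℤ) (j : ℕ), Val w ((j : ℤ) • E) = Val w E ^ j := by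
    intro E j
    induction j with
    | zero => simp [h0]
    | succ j ih =>
      push_cast
      rw [add_smul, one_smul, Val_add w hw, ih, pow_succ]
  cases n with
  | ofNat j => simpa using hnat D j
  | negSucc j =>
    rw [zpow_negSucc, ← hnat D (j + 1), ← hneg]
    congr 1
    rw [← neg_smul]
    rfl

lemma deg_zsmul {ι : Type} (d : ι → ℕ) (D : ι →₀ ℤ) (n : ℤ) : Deg d (n • D) = n * Deg d D := by
  unfold Deg
  rw [Finsupp.sum_smul_index' (by intro i; simp), Finsupp.mul_sum]
  refine Finsupp.sum_congr fun v _ => ?_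
  rw [smul_eq_mul]
  ring

/-- a multiplicative function which is trivial on the divisors of degree zero is a power of the
degree -/
lemma of_trivial {ι : Type} (d : ι → ℕ) (hd : ∀ v, d v ≠ 0) (w : ι → ℂ) (hw : ∀ v, ‖w v‖ = 1)
    (h : ∀ D : ι →₀ ℤ, Deg d D = 0 → Val w D = 1) :
    ∃ ε : ℂ, ‖ε‖ = 1 ∧ ∀ v, w v = ε ^ d v := by
  classical
  have hw0 : ∀ v, w v ≠ 0 := by
    intro v h0
    have := hw v
    rw [h0, norm_zero] at this
    exact zero_ne_one this
  rcases isEmpty_or_nonempty ι with he | ⟨⟨v0⟩⟩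
  · exact ⟨1, norm_one, fun v => (he.false v).elim⟩
  let H : AddSubgroup ℤ := AddMonoidHom.range
    { toFun := Deg d
      map_zero' := Deg_zero d
      map_add' := Deg_add d : (ι →₀ ℤ) →+ ℤ }
  obtain ⟨g, hg⟩ := Int.subgroup_cyclic H
  have hsingle : ∀ v, (d v : ℤ) ∈ H := by
    intro v
    refine ⟨Finsupp.single v 1, ?_⟩
    change Deg d (Finsupp.single v 1) = d v
    unfold Deg
    rw [Finsupp.sum_single_index (by simp), one_mul]
  have hgm : g ∈ H := by rw [hg]; exact AddSubgroup.subset_closure rfl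
  obtain ⟨D1, hD1⟩ := hgm
  change Deg d D1 = g at hD1
  have hdvd : ∀ v, g ∣ (d v : ℤ) := by
    intro v
    have := hsingle v
    rw [hg, AddSubgroup.mem_closure_singleton] at this
    obtain ⟨n, hn⟩ := this
    exact ⟨n, by rw [← hn, smul_eq_mul, mul_comm]⟩
  have hg0 : g ≠ 0 := by
    intro h0
    have := hdvd v0
    rw [h0, zero_dvd_iff] at this
    exact hd v0 (by exact_mod_cast this)
  -- a divisor of positive degree `e`
  obtain ⟨D, e, he0, hDe, hdv⟩ : ∃ (D : ι →₀ ℤ) (e : ℕ), e ≠ 0 ∧ Deg d D = e ∧ ∀ v, e ∣ d v := by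
    rcases le_or_gt 0 g with hpos | hneg
    · refine ⟨D1, g.toNat, by omega, by rw [hD1]; omega, fun v => ?_⟩
      have := hdvd v
      rw [← Int.toNat_of_nonneg hpos] at this
      exact_mod_cast this
    · refine ⟨-D1, (-g).toNat, by omega, by rw [Deg_neg, hD1]; omega, fun v => ?_⟩
      have := (neg_dvd).2 (hdvd v)
      rw [← Int.toNat_of_nonneg (show 0 ≤ -g by omega)] at this
      exact_mod_cast this
  obtain ⟨ε, hε⟩ := IsAlgClosed.exists_pow_nat_eq (Val w D) (Nat.pos_of_ne_zero he0)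
  refine ⟨ε, ?_, fun v => ?_⟩
  · have h1 := norm_val_one w hw D
    rw [← hε, norm_pow] at h1
    exact (pow_eq_one_iff_of_nonneg (norm_nonneg _) he0).1 h1
  · obtain ⟨j, hj⟩ := hdv v
    have h1 := h (Finsupp.single v 1 + (-(j : ℤ)) • D) (by
      rw [Deg_add, deg_zsmul, hDe]
      have : Deg d (Finsupp.single v 1) = d v := by
        unfold Deg
        rw [Finsupp.sum_single_index (by simp), one_mul]
      rw [this, hj]
      push_cast
      ring)
    rw [Val_add w hw0, val_zsmul w hw0, zpow_neg, zpow_natCast] at h1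
    have h2 : Val w (Finsupp.single v 1) = w v := by
      unfold Val
      rw [Finsupp.prod_single_index (by simp), zpow_one]
    have h3 : Val w D ^ j ≠ 0 := by
      apply pow_ne_zero
      intro h0
      have := norm_val_one w hw D
      rw [h0, norm_zero] at this
      exact zero_ne_one this
    rw [h2, mul_inv_eq_one₀ h3, ← hε, ← pow_mul, ← hj] at h1
    exact h1

include ha hS in
/-- **The dichotomy** -/
theorem dich (hne : S.Nonempty) :
    (∃ n0 : ℕ, ∀ n, n0 ≤ n → cf (fun v : Out S => v.1.deg) (opos S) (ofin S)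
      (fun v => kv χ a v.1) n = 0) ∨
    ∃ ε : ℂ, ‖ε‖ = 1 ∧ ∀ v : Out S, kv χ a v.1 = ε ^ v.1.deg := by
  classical
  by_cases H : ∃ D0 : Out S →₀ ℤ, Deg (fun v : Out S => v.1.deg) D0 = 0 ∧
      Val (fun v : Out S => kv χ a v.1) D0 ≠ 1
  · left
    obtain ⟨D0, h0, h1⟩ := H
    obtain ⟨k0, c, hc, hcard⟩ := exists_card (Pool.Agent.H962R3.WeilL.rr k F) S 1 le_rfl
    refine ⟨k0, fun n hn => ?_⟩
    exact vanish (fun v : Out S => v.1.deg) (opos S) (ofin S) (fun v => kv χ a v.1)
      (kv_ne_zero χ S a ha hS) (dv (Pool.Agent.H962R3.WeilL.rr k F))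
      (dv_inv (Pool.Agent.H962R3.WeilL.rr k F)) (val_dv χ S a ha hS hne)
      (Deg_dv (Pool.Agent.H962R3.WeilL.rr k F)) n (c n) (hc n hn) (hcard n hn) D0 h0 h1
  · right
    push Not at H
    exact of_trivial (fun v : Out S => v.1.deg) (opos S) (fun v => kv χ a v.1)
      (kv_norm χ S a ha hS) H

end

end Pool.Agent.Zk8.FK
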