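import Pool.Agent.Zk8.FK.Char
import Pool.Agent.Zk8.DH.Assemble

/-!
# The `L`-functions of Kummer characters of function fields over finite fields
-/

set_option autoImplicit false
set_option linter.all false

namespace Pool.Agent.Zk8.FK

open Finset FF Module
open Pool.Agent.H962R3.Cnt Pool.Agent.H962R3.App
open Pool.Agent.Zk8.DH (mc_norm mc_norm_le mc_integral mc_cases PB PB_eval hasProd_of_psum order_PB
  order_zero analyticAt_qz)

lemma exists_r {q : ℝ} (x : ℂ) (hx : ‖x‖ * q < 1) : ∃ r : ℝ, q < r ∧ ‖x‖ * r < 1 := by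
  rcases (norm_nonneg x).eq_or_lt with h | h
  · exact ⟨q + 1, by linarith, by rw [← h, zero_mul]; exact one_pos⟩
  · have h1 : q < 1 / ‖x‖ := by
      rw [lt_div_iff₀ h, mul_comm]
      exact hx
    obtain ⟨r, hr1, hr2⟩ := exists_between h1
    refine ⟨r, hr1, ?_⟩
    rw [lt_div_iff₀ h] at hr2
    rw [mul_comm]
    exact hr2

section

variable {k F : Type} [Field k] [Fintype k] [Field F] [Algebra k F] [IsFF k F]

/-- the sum of the values over the places outside `S` whose degree divides `m` -/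
lemma sum_out {M : Type} [AddCommMonoid M] (S : Finset (Place k F)) (m : ℕ) (hm : 0 < m)
    (f : Place k F → M) :
    ∑ v ∈ (dvd_finite (fun v : Out S => v.1.deg) (ofin S) m hm).toFinset, f v.1 =
      open Classical in ∑ v ∈ (dvd_finite (fun v : Place k F => v.deg) (pfin k F) m hm).toFinset,
        if v ∈ S then 0 else f v := by
  classical
  have h1 : ∑ v ∈ (dvd_finite (fun v : Place k F => v.deg) (pfin k F) m hm).toFinset,
        (if v ∈ S then 0 else f v) =
      ∑ v ∈ (dvd_finite (fun v : Place k F => v.deg) (pfin k F) m hm).toFinset.filter (fun v => v ∉ S),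
        f v := by
    rw [Finset.sum_filter]
    refine Finset.sum_congr rfl fun v _ => ?_
    by_cases h : v ∈ S
    · rw [if_pos h, if_neg (not_not.2 h)]
    · rw [if_neg h, if_pos h]
  refine Eq.trans ?_ h1.symm
  refine Finset.sum_bij (fun v _ => v.1) ?_ ?_ ?_ ?_
  · intro v hv
    rw [Set.Finite.mem_toFinset] at hv
    rw [Finset.mem_filter, Set.Finite.mem_toFinset]
    exact ⟨hv, v.2⟩
  · intro v _ w _ h
    exact Subtype.ext h
  · intro v hv
    rw [Finset.mem_filter, Set.Finite.mem_toFinset] at hv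
    exact ⟨⟨v, hv.2⟩, by rw [Set.Finite.mem_toFinset]; exact hv.1, rfl⟩
  · intro v _
    rfl

lemma count_out (S : Finset (Place k F)) (r : ℝ) (hr : (Fintype.card k : ℝ) < r) :
    ∃ C : ℝ, 0 ≤ C ∧ ∀ m (hm : 0 < m),
      (∑ v ∈ (dvd_finite (fun v : Out S => v.1.deg) (ofin S) m hm).toFinset, (v.1.deg : ℝ)) ≤
        C * r ^ m := by
  classical
  obtain ⟨C, hC, h⟩ := count k F r (by rwa [Nat.card_eq_fintype_card])
  refine ⟨C, hC, fun m hm => le_trans ?_ (h m hm)⟩
  rw [sum_out S m hm (fun v => (v.deg : ℝ))]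
  refine Finset.sum_le_sum fun v _ => ?_
  split_ifs
  · exact Nat.cast_nonneg _
  · exact le_rfl

lemma one_lt_q' : (1 : ℝ) < Fintype.card k := by exact_mod_cast Fintype.one_lt_card

/-- the Euler product over all places attached to known power sums, for the places outside `S` -/
lemma hasProd_out (S : Finset (Place k F)) (w : Out S → ℂ) (hw : ∀ v, ‖w v‖ ≤ 1)
    (D B : Multiset ℂ) (hD : ∀ β ∈ D, ‖β‖ ≤ Fintype.card k) (hB : ∀ β ∈ B, ‖β‖ ≤ Fintype.card k)
    (hps : ∀ m (hm : 0 < m), (∑ v ∈ (dvd_finite (fun v : Out S => v.1.deg) (ofin S) m hm).toFinset,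
      (v.1.deg : ℂ) * w v ^ (m / v.1.deg)) =
      (D.map fun β => β ^ m).sum - (B.map fun β => β ^ m).sum)
    (x : ℂ) (hx : ‖x‖ * Fintype.card k < 1) :
    HasProd (fun v : Out S => (1 - w v * x ^ v.1.deg)⁻¹) ((PB B).eval x / (PB D).eval x) := by
  obtain ⟨r, hr1, hr2⟩ := exists_r x hx
  obtain ⟨C, hC, hcount⟩ := count_out S r hr1
  rw [PB_eval, PB_eval]
  exact hasProd_of_psum (fun v : Out S => v.1.deg) (fun v => Nat.pos_of_ne_zero (opos S v))
    (dvd_finite (fun v : Out S => v.1.deg) (ofin S)) r (one_lt_q'.trans hr1) C hcount w hw D B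
    (fun β h => (hD β h).trans hr1.le) (fun β h => (hB β h).trans hr1.le) hps x hr2

/-- the same for all places -/
lemma hasProd_all (w : Place k F → ℂ) (hw : ∀ v, ‖w v‖ ≤ 1)
    (D B : Multiset ℂ) (hD : ∀ β ∈ D, ‖β‖ ≤ Fintype.card k) (hB : ∀ β ∈ B, ‖β‖ ≤ Fintype.card k)
    (hps : ∀ m (hm : 0 < m), (∑ v ∈ (dvd_finite (fun v : Place k F => v.deg) (pfin k F) m hm).toFinset,
      (v.deg : ℂ) * w v ^ (m / v.deg)) =
      (D.map fun β => β ^ m).sum - (B.map fun β => β ^ m).sum)
    (x : ℂ) (hx : ‖x‖ * Fintype.card k < 1) :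
    HasProd (fun v : Place k F => (1 - w v * x ^ v.deg)⁻¹) ((PB B).eval x / (PB D).eval x) := by
  obtain ⟨r, hr1, hr2⟩ := exists_r x hx
  obtain ⟨C, hC, hcount⟩ := count k F r (by rwa [Nat.card_eq_fintype_card])
  rw [PB_eval, PB_eval]
  exact hasProd_of_psum (fun v : Place k F => v.deg) (fun v => Nat.pos_of_ne_zero (dpos k F v))
    (dvd_finite (fun v : Place k F => v.deg) (pfin k F)) r (one_lt_q'.trans hr1) C hcount w hw D B
    (fun β h => (hD β h).trans hr1.le) (fun β h => (hB β h).trans hr1.le) hps x hr2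

variable (χ : MulChar k ℂ) (S : Finset (Place k F)) (a : F) (ha : a ≠ 0)
  (hS : ∀ v : Place k F, v.ord a ≠ 0 → v ∈ S)

include ha hS in
/-- the eigenvalues in the case of a character which is not geometrically trivial -/
lemma eigen_nontriv (h : ∃ n0 : ℕ, ∀ n, n0 ≤ n → cf (fun v : Out S => v.1.deg) (opos S) (ofin S)
      (fun v => kv χ a v.1) n = 0) :
    ∃ B : Multiset ℂ, (∀ β ∈ B, IsIntegral ℤ β ∧ ‖β‖ ≤ Fintype.card k) ∧ ∀ m (hm : 0 < m),
      (∑ v ∈ (dvd_finite (fun v : Out S => v.1.deg) (ofin S) m hm).toFinset,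
        (v.1.deg : ℂ) * kv χ a v.1 ^ (m / v.1.deg)) = -(B.map fun β => β ^ m).sum := by
  classical
  obtain ⟨n0, hn0⟩ := h
  obtain ⟨B, hB, hT⟩ := exists_eigen (fun v : Out S => v.1.deg) (opos S) (ofin S)
    (fun v => kv χ a v.1) (Fintype.card k) (by linarith [one_lt_q' (k := k)]) (by
      intro r hr
      obtain ⟨C, hC, hcount⟩ := count_out S r hr
      refine ⟨C, hC, fun m hm => ?_⟩
      rw [TT_eq _ _ _ m hm]
      refine (norm_sum_le _ _).trans ((Finset.sum_le_sum fun v _ => ?_).trans (hcount m hm))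
      rw [norm_mul, norm_pow, kv_norm χ S a ha hS v, one_pow, mul_one, Complex.norm_natCast])
    (fun v => mc_integral χ _) n0 hn0
  refine ⟨B, hB, fun m hm => ?_⟩
  rw [← hT m hm, TT_eq _ _ _ m hm]

/-- the product over the places in the case of a geometrically trivial character -/
lemma hasProd_triv (hconst : ∀ a : F, IsAlgebraic k a → a ∈ (algebraMap k F).range) :
    ∃ Z : Multiset ℂ, (∀ γ ∈ Z, IsIntegral ℤ γ ∧ ‖γ‖ ≤ Fintype.card k) ∧
      (∀ m (hm : 0 < m),
        (∑ v ∈ (dvd_finite (fun v : Place k F => v.deg) (pfin k F) m hm).toFinset, (v.deg : ℂ)) =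
          1 + (Fintype.card k : ℂ) ^ m - (Z.map fun γ => γ ^ m).sum) ∧
      ∀ x : ℂ, ‖x‖ * Fintype.card k < 1 →
        HasProd (fun v : Out S => (1 - x ^ v.1.deg)⁻¹)
          ((PB Z).eval x / ((1 - x) * (1 - Fintype.card k * x)) * ∏ v ∈ S, (1 - x ^ v.deg)) := by
  classical
  obtain ⟨Z, hZ, hN⟩ := zeta k F hconst
  rw [Nat.card_eq_fintype_card] at hZ
  simp only [Nat.card_eq_fintype_card] at hN
  refine ⟨Z, hZ, hN, fun x hx => ?_⟩
  have hq := one_lt_q' (k := k)
  have h1 := hasProd_all (F := F) (fun _ : Place k F => (1 : ℂ)) (fun _ => by simp)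
    {1, (Fintype.card k : ℂ)} Z (by
      intro β hβ
      rw [Multiset.insert_eq_cons, Multiset.mem_cons, Multiset.mem_singleton] at hβ
      rcases hβ with rfl | rfl
      · rw [norm_one]; exact hq.le
      · rw [Complex.norm_natCast]) (fun γ h => (hZ γ h).2) (by
      intro m hm
      have := hN m hm
      simp only [one_pow, mul_one]
      rw [this, Multiset.insert_eq_cons, Multiset.map_cons, Multiset.map_singleton,
        Multiset.sum_cons, Multiset.sum_singleton, one_pow]) x hx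
  simp only [one_mul] at h1
  have hPD : (PB {1, (Fintype.card k : ℂ)}).eval x = (1 - x) * (1 - Fintype.card k * x) := by
    rw [PB_eval, Multiset.insert_eq_cons, Multiset.map_cons, Multiset.map_singleton,
      Multiset.prod_cons, Multiset.prod_singleton, one_mul]
  rw [hPD] at h1
  have hx2 : ‖x‖ < 1 := by nlinarith [norm_nonneg x]
  have hne : ∀ v : Place k F, 1 - x ^ v.deg ≠ 0 := by
    intro v h0
    have h3 : ‖x ^ v.deg‖ = 1 := by rw [← sub_eq_zero.1 h0, norm_one]
    rw [norm_pow] at h3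
    have h4 := pow_lt_one₀ (norm_nonneg x) hx2 (dpos k F v)
    linarith
  have h2 : HasProd (fun v : Place k F => if v ∈ S then (1 - x ^ v.deg) else 1)
      (∏ v ∈ S, (1 - x ^ v.deg)) := by
    have h3 : HasProd (fun v : Place k F => if v ∈ S then (1 - x ^ v.deg) else 1)
        (∏ v ∈ S, if v ∈ S then (1 - x ^ v.deg) else 1) :=
      hasProd_prod_of_ne_finset_one (fun v hv => if_neg hv)
    convert h3 using 1
    exact Finset.prod_congr rfl fun v hv => by rw [if_pos hv]
  have h3 := h1.mul h2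
  have h4 := (Subtype.val_injective (p := fun P : Place k F => P ∉ S)).hasProd_iff
    (f := fun v : Place k F => (1 - x ^ v.deg)⁻¹ * if v ∈ S then (1 - x ^ v.deg) else 1)
    (a := (PB Z).eval x / ((1 - x) * (1 - Fintype.card k * x)) * ∏ v ∈ S, (1 - x ^ v.deg)) (by
      intro v hv
      have hvS : v ∈ S := by
        by_contra h
        exact hv ⟨⟨v, h⟩, rfl⟩
      rw [if_pos hvS, inv_mul_cancel₀ (hne v)])
  have h5 := h4.2 h3
  have h6 : ((fun v : Place k F => (1 - x ^ v.deg)⁻¹ * if v ∈ S then (1 - x ^ v.deg) else 1) ∘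
      (Subtype.val : Out S → Place k F)) = fun v : Out S => (1 - x ^ v.1.deg)⁻¹ := by
    funext v
    change (1 - x ^ v.1.deg)⁻¹ * (if v.1 ∈ S then (1 - x ^ v.1.deg) else 1) = (1 - x ^ v.1.deg)⁻¹
    rw [if_neg v.2, mul_one]
  rw [h6] at h5
  exact h5

end

end Pool.Agent.Zk8.FK
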