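import Pool.Agent.H714R3.ZT.TaskC2
import Pool.Agent.H510R3.ZT.C0
import Pool.Agent.H962R3.WeilL

/-!
# Reciprocity for norms of residues in a function field over a finite field
-/

set_option autoImplicit false
set_option linter.all false

namespace Pool.Agent.Zk8.FK

open Polynomial Module FF IntermediateField
open Pool.Agent.H134R3.ZT Pool.Agent.H387R3.ZT Pool.Agent.H714R3.ZT

section DM

variable {R k : Type*} [Semiring R] [CommRing k] {ι : Type*} [Fintype ι] [DecidableEq ι]

lemma DM_C (f : R →+* Matrix ι ι k) (x : R) : DM f (C x) = C (f x).det := by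
  rw [DM_def]
  have h : PM f (C x) = (C : k →+* k[X]).mapMatrix (f x) := by
    ext i j n
    rw [PM_coeff, RingHom.mapMatrix_apply, Matrix.map_apply, coeff_C, coeff_C]
    split_ifs with h
    · rfl
    · rw [map_zero]; rfl
  rw [h, ← RingHom.map_det]

end DM

lemma DA_C (k : Type*) {A : Type*} [CommRing k] [CommRing A] [Algebra k A] [Module.Free k A]
    [Module.Finite k A] (x : A) : DA k (C x) = C (Algebra.norm k x) := by
  classical
  unfold DA
  rw [DM_C]
  congr 1
  exact (Algebra.norm_eq_matrix_det (Module.Free.chooseBasis k A) x).symm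

section

variable {k F : Type} [Field k] [Finite k] [Field F] [Algebra k F] [IsFF k F]

/-- the norm to the field of constants of the residue of `a` at the place `v` -/
noncomputable def nv (a : F) (v : Place k F) : k := Algebra.norm k (v.red a)

lemma redP_C (a : F) (v : Place k F) : redP v (C a) = C (v.red a) := by
  unfold redP
  rw [Polynomial.sum_C_index]
  · rw [pow_zero, mul_one]
  · rw [v.red_zero, C_0, zero_mul]

lemma LD_C (a : F) (v : Place k F) : LD v (C a) = C (nv a v) := by
  unfold LD nv
  rw [redP_C, DA_C]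

lemma nrmK_C (a : F) (v : Place k F) : nrmK v (C a) = C (algebraMap k v.RF (nv a v)) := by
  rw [← LD_map, LD_C, map_C]

/-- if `a` and `a⁻¹` are regular outside the poles of `u` then the norm of `a` is a constant -/
theorem norm_const (u : F) (hu : Transcendental k u) [FiniteDimensional k⟮u⟯ F]
    (hsep : Algebra.IsSeparable k⟮u⟯ F) (a : F) (ha : a ≠ 0)
    (hreg : ∀ v : Place k F, 0 ≤ v.ord u → v.ord a = 0) :
    ∃ c : k, Algebra.norm k⟮u⟯ a = algebraMap k k⟮u⟯ c := by
  open scoped algebraAdjoinAdjoin in
  let A := Algebra.adjoin k {u}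
  let e := Polynomial.algEquivOfTranscendental k u hu
  have hpid : IsPrincipalIdealRing A := IsPrincipalIdealRing.of_surjective e.toRingEquiv e.surjective
  let U : A := ⟨u, Algebra.self_mem_adjoin_singleton k u⟩
  have heU : e Polynomial.X = U := Polynomial.algEquivOfTranscendental_apply_X k u hu
  have heπ : e X = U := heU
  have hπ : U ≠ 0 := by
    rw [← heπ]
    intro h0
    exact X_ne_zero ((map_eq_zero_iff e e.injective).1 h0)
  let ε : A →ₐ[k] k := (Polynomial.aeval (0 : k)).comp e.symm.toAlgHom
  have hker : ∀ a, ε a = 0 ↔ U ∣ a := by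
    intro a
    change (Polynomial.aeval (0 : k)) (e.symm a) = 0 ↔ _
    rw [← heπ]
    constructor
    · intro ha
      have h1 : X ∣ e.symm a := by
        rw [X_dvd_iff, coeff_zero_eq_eval_zero, ← Polynomial.coe_aeval_eq_eval]
        exact ha
      have h2 := map_dvd e h1
      rwa [AlgEquiv.apply_symm_apply] at h2
    · intro ha
      have h2 := map_dvd e.symm ha
      rw [AlgEquiv.symm_apply_apply, X_dvd_iff, coeff_zero_eq_eval_zero,
        ← Polynomial.coe_aeval_eq_eval] at h2
      exact h2
  have hu0 : u ≠ 0 := by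
    rintro rfl
    exact hu isAlgebraic_zero
  have key : ∀ b : F, (∀ v : Place k F, 0 ≤ v.ord u → v.Reg b) →
      ∃ n : A, algebraMap A k⟮u⟯ n = Algebra.norm k⟮u⟯ b := by
    intro b hb
    obtain ⟨N, hN1, -⟩ := core (k := k) (F := F) k⟮u⟯ A hsep ε U hπ hker (C b) (by
      intro v hv j
      rw [coeff_C]
      split_ifs
      · refine hb v ?_
        have := hv U
        change v.Reg u at this
        exact (v.reg_iff hu0).1 this
      · exact v.reg_zero)
    refine ⟨N.coeff 0, ?_⟩
    have h1 := congrArg (fun P => P.coeff 0) hN1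
    simp only [coeff_map] at h1
    rw [h1, NP_eq_DA, DA_C, coeff_C_zero]
  obtain ⟨n1, h1⟩ := key a fun v hv => Or.inr (hreg v hv).ge
  obtain ⟨n2, h2⟩ := key a⁻¹ fun v hv => Or.inr (by rw [v.ord_inv, hreg v hv]; simp)
  have h3 : n1 * n2 = 1 := by
    apply IsFractionRing.injective A k⟮u⟯
    rw [map_mul, h1, h2, ← map_mul, mul_inv_cancel₀ ha, map_one, map_one]
  have h4 : IsUnit (e.symm n1) := (IsUnit.of_mul_eq_one _ h3).map e.symm
  obtain ⟨c, -, hc⟩ := Polynomial.isUnit_iff.1 h4
  refine ⟨c, ?_⟩
  rw [← h1]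
  have h5 : n1 = algebraMap k A c := by
    rw [← e.apply_symm_apply n1, ← hc]
    exact e.commutes c
  rw [h5]
  rfl

/-- evaluation of the norm at `u = t` -/
theorem norm_eval (u : F) (hu : Transcendental k u) [FiniteDimensional k⟮u⟯ F]
    (hsep : Algebra.IsSeparable k⟮u⟯ F) (a : F) (ha : a ≠ 0)
    (hreg : ∀ v : Place k F, 0 ≤ v.ord u → v.ord a = 0) (c : k)
    (hc : Algebra.norm k⟮u⟯ a = algebraMap k k⟮u⟯ c) (t : k) :
    ∏ᶠ v : Place k F, nv a v ^ (v.ord (u - algebraMap k F t)).toNat = c := by
  have h := taskC2 k F u 1 hu hsep (C a) (by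
    intro v hv j
    rw [coeff_C]
    split_ifs
    · exact Or.inr (hreg v hv).ge
    · exact v.reg_zero) (C c) (by
    intro j hj
    have : j = 0 := by omega
    subst this
    rw [NP_eq_DA, DA_C, coeff_C_zero, coeff_C_zero, hc]) t (fun v => C (nv a v)) (by
    intro v _
    rw [map_C, nrmK_C, sub_self]
    exact dvd_zero _)
  have hfin : (Function.mulSupport fun v : Place k F =>
      C (nv a v) ^ (v.ord (u - algebraMap k F t)).toNat).Finite := by
    refine (Pool.Agent.H525R3.FFp.finite_support (k := k) (u - algebraMap k F t)).subset ?_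
    intro v hv
    rw [Function.mem_mulSupport] at hv
    intro h0
    apply hv
    rw [h0]
    simp
  have hfin' : (Function.mulSupport fun v : Place k F =>
      nv a v ^ (v.ord (u - algebraMap k F t)).toNat).Finite := by
    refine (Pool.Agent.H525R3.FFp.finite_support (k := k) (u - algebraMap k F t)).subset ?_
    intro v hv
    rw [Function.mem_mulSupport] at hv
    intro h0
    apply hv
    rw [h0]
    simp
  have h2 : ∏ᶠ v : Place k F, C (nv a v) ^ (v.ord (u - algebraMap k F t)).toNat =
      C (∏ᶠ v : Place k F, nv a v ^ (v.ord (u - algebraMap k F t)).toNat) := by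
    have := MonoidHom.map_finprod (C : k →+* k[X]).toMonoidHom hfin'
    refine Eq.trans ?_ this.symm
    refine finprod_congr fun v => ?_
    simp
  rw [h2, pow_one, X_dvd_iff, coeff_sub, coeff_C_zero, coeff_C_zero, sub_eq_zero] at h
  exact h

end

end Pool.Agent.Zk8.FK
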