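import Pool.Agent.Zk8.FK.Euler
import Pool.Agent.H22R3.ZT.Supp
import Pool.Agent.Zk8.DH.Order

/-!
# The order of vanishing for Kummer characters of function fields
-/

set_option autoImplicit false
set_option linter.all false

namespace Pool.Agent.Zk8.FK

open Finset FF Module
open Pool.Agent.H962R3.Cnt Pool.Agent.H962R3.App
open Pool.Agent.Zk8.DH (mc_norm mc_norm_le mc_integral mc_cases PB PB_eval hasProd_of_psum order_PB
  order_zero analyticAt_qz)

section

variable {k F : Type} [Field k] [Fintype k] [Field F] [Algebra k F] [IsFF k F]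

lemma exists_out (S : Finset (Place k F)) : Nonempty (Out S) := by
  have : Infinite (Place k F) := (Pool.Agent.H22R3.ZT.taskSupp k F).2
  obtain ⟨v, hv⟩ := Infinite.exists_notMem_finset S
  exact ⟨⟨v, hv⟩⟩

lemma map_mul_sum (Z : Multiset ℂ) (ε : ℂ) (m : ℕ) :
    ((Z.map fun γ => γ * ε).map fun β => β ^ m).sum = ε ^ m * (Z.map fun γ => γ ^ m).sum := by
  rw [Multiset.map_map, ← Multiset.sum_map_mul_left]
  congr 1
  refine Multiset.map_congr rfl fun γ _ => ?_
  simp only [Function.comp]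
  rw [mul_pow, mul_comm]

lemma PB_map_mul (Z : Multiset ℂ) (ε x : ℂ) :
    (PB (Z.map fun γ => γ * ε)).eval x = (PB Z).eval (ε * x) := by
  rw [PB_eval, PB_eval, Multiset.map_map]
  congr 1
  refine Multiset.map_congr rfl fun γ _ => ?_
  simp only [Function.comp]
  ring

variable (χ : MulChar k ℂ) (S : Finset (Place k F)) (a : F) (ha : a ≠ 0)
  (hS : ∀ v : Place k F, v.ord a ≠ 0 → v ∈ S)

open scoped Classical in
include ha hS in
/-- the function `G` of one line: eigenvalues, Euler product and order -/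
theorem exists_G (hne : S.Nonempty) (hconst : ∀ a : F, IsAlgebraic k a → a ∈ (algebraMap k F).range)
    (ρ : ℂ) (i : ℕ) (hρ : ‖ρ‖ ^ 2 * Fintype.card k = (Fintype.card k : ℝ) ^ (2 * i)) :
    ∃ (B : Multiset ℂ) (G : ℂ → ℂ), (∀ β ∈ B, IsIntegral ℤ β) ∧
      ((∀ m (hm : 0 < m), (∑ v ∈ (dvd_finite (fun v : Out S => v.1.deg) (ofin S) m hm).toFinset,
        (v.1.deg : ℂ) * kv χ a v.1 ^ (m / v.1.deg)) = -(B.map fun β => β ^ m).sum) ∨
      (∃ ε : ℂ, ‖ε‖ = 1 ∧ (∀ v : Out S, kv χ a v.1 = ε ^ v.1.deg) ∧ ∀ m (hm : 0 < m),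
        (∑ v ∈ (dvd_finite (fun v : Place k F => v.deg) (pfin k F) m hm).toFinset,
          (v.deg : ℂ)) * ε ^ m = ε ^ m + (Fintype.card k * ε) ^ m - (B.map fun β => β ^ m).sum)) ∧
      (∀ x : ℂ, ‖x‖ * Fintype.card k < 1 →
        HasProd (fun v : Out S => (1 - kv χ a v.1 * x ^ v.1.deg)⁻¹) (G x)) ∧
      (∀ z : ℂ, MeromorphicAt (fun z : ℂ => G (ρ * (Fintype.card k : ℂ) ^ (-z))) z) ∧
      meromorphicOrderAt (fun z : ℂ => G (ρ * (Fintype.card k : ℂ) ^ (-z))) i =
        ((Multiset.card (B.filter fun β => β * ρ = (Fintype.card k : ℂ) ^ i) : ℕ) : ℤ) := by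
  have hq1 : (1 : ℝ) < Fintype.card k := one_lt_q'
  have hq0 : (0 : ℝ) < Fintype.card k := by linarith
  have hqc : (((Fintype.card k : ℝ) : ℂ)) = (Fintype.card k : ℂ) := by push_cast; rfl
  rcases dich χ S a ha hS hne with h | ⟨ε, hε, h⟩
  · obtain ⟨B, hB, hT⟩ := eigen_nontriv χ S a ha hS h
    refine ⟨B, fun x => (PB B).eval x, fun β hβ => (hB β hβ).1, Or.inl hT, ?_, ?_, ?_⟩
    · intro x hx
      have h1 := hasProd_out S (fun v => kv χ a v.1) (fun v => (kv_norm χ S a ha hS v).le) 0 B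
        (by simp) (fun β hβ => (hB β hβ).2) (fun m hm => by
          rw [hT m hm, Multiset.map_zero, Multiset.sum_zero, zero_sub]) x hx
      rw [Pool.Agent.Zk8.DH.PB_zero, Polynomial.eval_one, div_one] at h1
      exact h1
    · intro z
      have := (order_PB hq1 B ρ i).1 z
      rwa [hqc] at this
    · have := (order_PB hq1 B ρ i).2
      rwa [hqc] at this
  · obtain ⟨Z, hZ, hN, hP⟩ := hasProd_triv S hconst
    have hεint : IsIntegral ℤ ε := by
      obtain ⟨v⟩ := exists_out S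
      refine IsIntegral.of_pow (Nat.pos_of_ne_zero (opos S v)) ?_
      rw [← h v]
      exact (mc_integral χ _)
    refine ⟨Z.map fun γ => γ * ε, fun x => (PB (Z.map fun γ => γ * ε)).eval x *
        ((1 - ε * x)⁻¹ * (1 - Fintype.card k * (ε * x))⁻¹ * ∏ v ∈ S, (1 - (ε * x) ^ v.deg)),
        ?_, Or.inr ⟨ε, hε, h, ?_⟩, ?_, ?_, ?_⟩
    · intro β hβ
      rw [Multiset.mem_map] at hβ
      obtain ⟨γ, hγ, rfl⟩ := hβ
      exact (hZ γ hγ).1.mul hεint
    · intro m hm
      rw [hN m hm, map_mul_sum, mul_pow]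
      ring
    · intro x hx
      have hx1 : ‖ε * x‖ * Fintype.card k < 1 := by rw [norm_mul, hε, one_mul]; exact hx
      have h1 := hP (ε * x) hx1
      convert h1 using 1
      · funext v
        rw [h v, mul_pow]
      · change (PB (Z.map fun γ => γ * ε)).eval x * _ = _
        rw [PB_map_mul, div_eq_mul_inv, mul_inv]
        ring
    all_goals
      have hz : ∀ z : ℂ, AnalyticAt ℂ
          (fun z : ℂ => ε * (ρ * (Fintype.card k : ℂ) ^ (-z))) z := by
        intro z
        have := analyticAt_qz hq0 z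
        rw [hqc] at this
        exact analyticAt_const.mul (analyticAt_const.mul this)
      have hz0 : ∀ z : ℂ, AnalyticAt ℂ
          (fun z : ℂ => 1 - (ε * (ρ * (Fintype.card k : ℂ) ^ (-z)))) z :=
        fun z => analyticAt_const.sub (hz z)
      have hz1 : ∀ z : ℂ, AnalyticAt ℂ
          (fun z : ℂ => 1 - Fintype.card k * (ε * (ρ * (Fintype.card k : ℂ) ^ (-z)))) z :=
        fun z => analyticAt_const.sub (analyticAt_const.mul (hz z))
      have hz2 : ∀ z : ℂ, AnalyticAt ℂ (fun z : ℂ => ∏ v ∈ S,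
          (1 - (ε * (ρ * (Fintype.card k : ℂ) ^ (-z))) ^ v.deg)) z := by
        intro z
        exact Finset.analyticAt_fun_prod _ fun v _ => analyticAt_const.sub ((hz z).pow _)
      have hB1 := fun z => (order_PB hq1 (Z.map fun γ => γ * ε) ρ i).1 z
      have hB2 := (order_PB hq1 (Z.map fun γ => γ * ε) ρ i).2
      rw [hqc] at hB1 hB2
    · intro z
      exact (hB1 z).mul (((hz0 z).meromorphicAt.inv.mul (hz1 z).meromorphicAt.inv).mul
        (hz2 z).meromorphicAt)
    · -- the norm of the argument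
      have hX : ‖ε * (ρ * (Fintype.card k : ℂ) ^ (-(i : ℂ)))‖ ^ 2 * Fintype.card k = 1 := by
        rw [norm_mul, norm_mul, hε, one_mul, Complex.cpow_neg, Complex.cpow_natCast, norm_inv,
          norm_pow, Complex.norm_natCast, mul_pow]
        have h1 : ((Fintype.card k : ℝ) ^ (2 * i)) = ((Fintype.card k : ℝ) ^ i) ^ 2 := by
          rw [← pow_mul, mul_comm]
        rw [mul_right_comm, hρ, h1, ← mul_pow, mul_inv_cancel₀ (by positivity), one_pow]
      have hlt : ‖ε * (ρ * (Fintype.card k : ℂ) ^ (-(i : ℂ)))‖ < 1 := by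
        by_contra hge
        push Not at hge
        have h1 : 1 ≤ ‖ε * (ρ * (Fintype.card k : ℂ) ^ (-(i : ℂ)))‖ ^ 2 := one_le_pow₀ hge
        nlinarith
      have hn0 : 1 - (ε * (ρ * (Fintype.card k : ℂ) ^ (-(i : ℂ)))) ≠ 0 := by
        intro h0
        have h1 : ‖ε * (ρ * (Fintype.card k : ℂ) ^ (-(i : ℂ)))‖ = 1 := by
          rw [← sub_eq_zero.1 h0, norm_one]
        linarith
      have hn1 : 1 - Fintype.card k * (ε * (ρ * (Fintype.card k : ℂ) ^ (-(i : ℂ)))) ≠ 0 := by
        intro h0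
        have h1 : ‖(Fintype.card k : ℂ) * (ε * (ρ * (Fintype.card k : ℂ) ^ (-(i : ℂ))))‖ = 1 := by
          rw [← sub_eq_zero.1 h0, norm_one]
        rw [norm_mul, Complex.norm_natCast] at h1
        have h2 : ((Fintype.card k : ℝ) * ‖ε * (ρ * (Fintype.card k : ℂ) ^ (-(i : ℂ)))‖) ^ 2
            = Fintype.card k := by
          rw [mul_pow, pow_two (Fintype.card k : ℝ), mul_assoc,
            mul_comm (Fintype.card k : ℝ) (‖_‖ ^ 2), hX, mul_one]
        rw [h1] at h2
        linarith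
      have hn2 : (∏ v ∈ S, (1 - (ε * (ρ * (Fintype.card k : ℂ) ^ (-(i : ℂ)))) ^ v.deg)) ≠ 0 := by
        refine Finset.prod_ne_zero_iff.2 fun v _ h0 => ?_
        have h1 : ‖(ε * (ρ * (Fintype.card k : ℂ) ^ (-(i : ℂ)))) ^ v.deg‖ = 1 := by
          rw [← sub_eq_zero.1 h0, norm_one]
        rw [norm_pow] at h1
        have h2 := pow_lt_one₀ (norm_nonneg _) hlt (dpos k F v)
        linarith
      have hA : AnalyticAt ℂ (fun z : ℂ => (1 - ε * (ρ * (Fintype.card k : ℂ) ^ (-z)))⁻¹ *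
          (1 - Fintype.card k * (ε * (ρ * (Fintype.card k : ℂ) ^ (-z))))⁻¹ *
          ∏ v ∈ S, (1 - (ε * (ρ * (Fintype.card k : ℂ) ^ (-z))) ^ v.deg)) i :=
        (((hz0 i).inv hn0).mul ((hz1 i).inv hn1)).mul (hz2 i)
      rw [fun_meromorphicOrderAt_mul (hB1 i) hA.meromorphicAt, hB2, order_zero hA
        (mul_ne_zero (mul_ne_zero (inv_ne_zero hn0) (inv_ne_zero hn1)) hn2), add_zero]

end

end Pool.Agent.Zk8.FK
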