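import Pool.Agent.Zk8.FK.Norm

/-!
# Weil's reciprocity law for functions which are one on the support of the other one
-/

set_option autoImplicit false
set_option linter.all false

namespace Pool.Agent.Zk8.FK

open Polynomial Module FF IntermediateField
open Pool.Agent.H387R3.ZT

section

variable {k F : Type} [Field k] [Finite k] [Field F] [Algebra k F] [IsFF k F]

lemma nv_ne_zero {a : F} (ha : a ≠ 0) {v : Place k F} (hv : v.ord a = 0) : nv a v ≠ 0 := by
  unfold nv
  rw [Ne, Algebra.norm_eq_zero_iff]
  exact v.red_ne_zero ha hv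

lemma ord_aux (v : Place k F) {f u : F} (hf : f ≠ 0) (hf1 : f - 1 ≠ 0) (hu : u = (f - 1)⁻¹) :
    v.ord f = ((v.ord (u + 1)).toNat : ℤ) - ((v.ord u).toNat : ℤ) ∧
    (v.ord u < 0 → v.ord (u + 1) < 0) := by
  have hu0 : u ≠ 0 := by rw [hu]; exact inv_ne_zero hf1
  have e : u + 1 = f * u := by
    rw [hu]
    field_simp
    ring
  have hu1 : u + 1 ≠ 0 := by rw [e]; exact mul_ne_zero hf hu0
  have h1 : v.ord (u + 1) = v.ord f + v.ord u := by rw [e, v.ord_mul hf hu0]
  rcases lt_trichotomy (v.ord u) 0 with h | h | h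
  · have h2 := (v.ord_add_eq hu0 one_ne_zero (by rw [v.ord_one]; exact h)).2
    constructor
    · omega
    · intro _
      omega
  · have h2 := v.ord_add hu0 one_ne_zero hu1
    rw [v.ord_one, h, min_self] at h2
    constructor
    · omega
    · intro h3
      omega
  · have h2 := (v.ord_add_eq (f := 1) (g := u) one_ne_zero hu0 (by rw [v.ord_one]; exact h)).2
    rw [add_comm, v.ord_one] at h2
    constructor
    · omega
    · intro h3
      omega

lemma fin_supp (f : F) {M : Type} [Monoid M] (g : Place k F → M)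
    (h : ∀ v : Place k F, v.ord f = 0 → g v = 1) : (Function.mulSupport g).Finite := by
  refine (Pool.Agent.H525R3.FFp.finite_support (k := k) f).subset ?_
  intro v hv
  rw [Function.mem_mulSupport] at hv
  intro h0
  exact hv (h v h0)

theorem recip_aux (p : ℕ) [Fact p.Prime] [CharP k p] (S : Set (Place k F)) (v0 : Place k F)
    (hv0 : v0 ∈ S) (a : F) (ha : a ≠ 0) (hS : ∀ v : Place k F, v.ord a ≠ 0 → v ∈ S) :
    ∀ n : ℕ, ∀ f : F, f ≠ 0 → f - 1 ≠ 0 → (∀ v ∈ S, 0 < v.ord (f - 1)) → v0.ord (f - 1) ≤ n →
      ∏ᶠ v : Place k F, nv a v ^ v.ord f = 1 := by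
  intro n
  induction n with
  | zero =>
    intro f _ _ h1 h2
    have := h1 v0 hv0
    push_cast at h2
    omega
  | succ n ih =>
    intro f hf hf1 h1 h2
    set u : F := (f - 1)⁻¹ with hu
    have hu0 : u ≠ 0 := inv_ne_zero hf1
    have hord : ∀ v : Place k F, v.ord u = -v.ord (f - 1) := fun v => by rw [hu, v.ord_inv]
    have htr : Transcendental k u := v0.transcendental_of_ord_ne (by
      have := h1 v0 hv0
      rw [hord]
      omega)
    have hfin : FiniteDimensional k⟮u⟯ F := IsFF.finite htr
    have hreg : ∀ v : Place k F, 0 ≤ v.ord u → v.ord a = 0 := by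
      intro v hv
      by_contra h
      have := h1 v (hS v h)
      rw [hord] at hv
      omega
    by_cases hsep : Algebra.IsSeparable k⟮u⟯ F
    · obtain ⟨c, hc⟩ := norm_const u htr hsep a ha hreg
      have hc0 : c ≠ 0 := by
        rintro rfl
        rw [map_zero, Algebra.norm_eq_zero_iff] at hc
        exact ha hc
      have e0 := norm_eval u htr hsep a ha hreg c hc 0
      have e1 := norm_eval u htr hsep a ha hreg c hc (-1)
      rw [map_zero, sub_zero] at e0
      rw [map_neg, map_one, sub_neg_eq_add] at e1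
      have h3 : ∀ v : Place k F, nv a v ^ v.ord f =
          nv a v ^ (v.ord (u + 1)).toNat * (nv a v ^ (v.ord u).toNat)⁻¹ := by
        intro v
        obtain ⟨h4, h5⟩ := ord_aux v hf hf1 hu
        by_cases h6 : v.ord u < 0
        · have h7 := h5 h6
          rw [h4, Int.toNat_of_nonpos h7.le, Int.toNat_of_nonpos h6.le]
          simp
        · have h7 := nv_ne_zero ha (hreg v (not_lt.1 h6))
          rw [h4, zpow_sub₀ h7, zpow_natCast, zpow_natCast, div_eq_mul_inv]
      rw [finprod_congr h3, finprod_mul_distrib, finprod_inv_distrib, e0, e1, mul_inv_cancel₀ hc0]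
      · exact fin_supp (u + 1) _ fun v hv => by rw [hv]; simp
      · exact fin_supp u _ fun v hv => by rw [hv]; simp
    · obtain ⟨u1, hu1⟩ := Pool.Agent.H510R3.ZT.taskC0 p k F u htr hsep
      have hp : p.Prime := Fact.out
      have hcF : CharP F p := charP_of_injective_algebraMap (algebraMap k F).injective p
      have hu10 : u1 ≠ 0 := by
        rintro rfl
        rw [zero_pow hp.ne_zero] at hu1
        exact hu0 hu1.symm
      set f1 : F := 1 + u1⁻¹ with hf1'
      have hpow : f1 ^ p = f := by
        rw [hf1', add_pow_char, one_pow, inv_pow, hu1, hu, inv_inv]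
        ring
      have hf10 : f1 ≠ 0 := by
        intro h
        rw [h, zero_pow hp.ne_zero] at hpow
        exact hf hpow.symm
      have hf11 : f1 - 1 = u1⁻¹ := by rw [hf1']; ring
      have hordp : ∀ v : Place k F, v.ord (f - 1) = p * v.ord (f1 - 1) := by
        intro v
        have := hord v
        rw [← hu1, v.ord_pow] at this
        rw [hf11, v.ord_inv]
        linarith
      have h3 := ih f1 hf10 (by rw [hf11]; exact inv_ne_zero hu10) (by
        intro v hv
        have := h1 v hv
        rw [hordp] at this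
        have hp0 : (0 : ℤ) < p := by exact_mod_cast hp.pos
        exact (mul_pos_iff_of_pos_left hp0).1 this) (by
        have h4 := h1 v0 hv0
        rw [hordp] at h2 h4
        have hp2 : (2 : ℤ) ≤ p := by exact_mod_cast hp.two_le
        push_cast at h2
        have h5 : 0 < v0.ord (f1 - 1) := (mul_pos_iff_of_pos_left (by omega)).1 h4
        nlinarith)
      have h4 : ∀ v : Place k F, nv a v ^ v.ord f = (nv a v ^ v.ord f1) ^ p := by
        intro v
        rw [← hpow, v.ord_pow, mul_comm, zpow_mul, zpow_natCast]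
      rw [finprod_congr h4, ← finprod_pow, h3, one_pow]
      exact fin_supp f1 _ fun v hv => by rw [hv, zpow_zero]

/-- **Weil's reciprocity law**, for a function `f` which is one on a nonempty set `S` that contains the
zeros and poles of `a`. -/
theorem recip (S : Set (Place k F)) (hne : S.Nonempty) (a : F) (ha : a ≠ 0)
    (hS : ∀ v : Place k F, v.ord a ≠ 0 → v ∈ S) (f : F) (hf : f ≠ 0)
    (h1 : ∀ v ∈ S, f - 1 = 0 ∨ 0 < v.ord (f - 1)) :
    ∏ᶠ v : Place k F, nv a v ^ v.ord f = 1 := by
  by_cases hf1 : f - 1 = 0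
  · rw [sub_eq_zero] at hf1
    rw [hf1]
    refine Eq.trans (finprod_congr fun v => ?_) finprod_one
    rw [v.ord_one, zpow_zero]
  · obtain ⟨p, hp⟩ := CharP.exists k
    have : Fact p.Prime := ⟨CharP.char_is_prime k p⟩
    obtain ⟨v0, hv0⟩ := hne
    exact recip_aux p S v0 hv0 a ha hS (v0.ord (f - 1)).toNat f hf hf1
      (fun v hv => (h1 v hv).resolve_left hf1) (by
        have := (h1 v0 hv0).resolve_left hf1
        omega)

end

end Pool.Agent.Zk8.FK
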