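import Pool.Agent.Zk8.FK.Order
import Pool.Agent.Zk8.FK.Super

/-!
# Traces of Frobenius for products of diagonal hypersurfaces over a function field
-/

set_option autoImplicit false
set_option linter.all false

namespace Pool.Agent.Zk8.FK

open Finset FF Module
open Pool.Agent.Zk8.DH (PB PB_eval mem_chars trace_block chars norm_gaussSum exists_ext PB_ext
  chE_pow mc_pow_apply)

section

variable {k : Type} [Field k] [Fintype k] {m r : ℕ} [NeZero m] {n μ : Fin r → ℕ}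
  [∀ b, NeZero (μ b)]

/-- the exponents of a line -/
def ex (m : ℕ) {r : ℕ} {n μ : Fin r → ℕ} (s : ∀ b, Fin (n b + 2) → ZMod (μ b)) (b : Fin r)
    (j : Fin (n b + 2)) : ℕ := m / μ b * (s b j).val

/-- the eigenvalue of Frobenius on the line of `s` -/
noncomputable def rho (m : ℕ) (χ : MulChar k ℂ) (ψ : AddChar k ℂ)
    (s : ∀ b, Fin (n b + 2) → ZMod (μ b)) : ℂ :=
  -((Fintype.card k : ℂ) ^ r)⁻¹ * ∏ b, ∏ j, gaussSum (χ ^ ex m s b j) ψ

/-- the function of the Kummer character of the line of `s` -/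
noncomputable def aps (m : ℕ) {F : Type} [Field F] (a : ∀ b, Fin (n b + 2) → F)
    (s : ∀ b, Fin (n b + 2) → ZMod (μ b)) : F := ∏ b, ∏ j, a b j ^ ex m s b j

/-- the lines -/
noncomputable def lines (n μ : Fin r → ℕ) [∀ b, NeZero (μ b)] :
    Finset (∀ b, Fin (n b + 2) → ZMod (μ b)) :=
  Fintype.piFinset fun b => chars (μ b) (Fin (n b + 2))

lemma mem_lines {s : ∀ b, Fin (n b + 2) → ZMod (μ b)} :
    s ∈ lines n μ ↔ ∀ b, (∀ j, s b j ≠ 0) ∧ ∑ j, s b j = 0 := by
  simp [lines, mem_chars]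

lemma ex_pos (hμ : ∀ b, μ b ∣ m) {s : ∀ b, Fin (n b + 2) → ZMod (μ b)} (hs : s ∈ lines n μ)
    (b : Fin r) (j : Fin (n b + 2)) : 0 < ex m s b j := by
  rw [mem_lines] at hs
  refine Nat.mul_pos (Nat.div_pos (Nat.le_of_dvd (Nat.pos_of_ne_zero (NeZero.ne m)) (hμ b))
    (Nat.pos_of_ne_zero (NeZero.ne _))) (Nat.pos_of_ne_zero fun h => ?_)
  exact (hs b).1 j ((ZMod.val_eq_zero _).1 h)

lemma ex_lt (hμ : ∀ b, μ b ∣ m) (s : ∀ b, Fin (n b + 2) → ZMod (μ b))
    (b : Fin r) (j : Fin (n b + 2)) : ex m s b j < m := by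
  have h1 : 0 < m / μ b := Nat.div_pos (Nat.le_of_dvd (Nat.pos_of_ne_zero (NeZero.ne m)) (hμ b))
    (Nat.pos_of_ne_zero (NeZero.ne _))
  calc ex m s b j = m / μ b * (s b j).val := rfl
    _ < m / μ b * μ b := (Nat.mul_lt_mul_left h1).2 (ZMod.val_lt _)
    _ = m := Nat.div_mul_cancel (hμ b)

section ext

variable {E : Type} [Field E] [Fintype E] [Algebra k E]

/-- the trace on the tensor product of the primitive cohomology groups -/
theorem trace_prod (hm : m ∣ Fintype.card k - 1) (hμ : ∀ b, μ b ∣ m) (χ : MulChar k ℂ)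
    (hχ : orderOf χ = m) {ψ : AddChar k ℂ} (hψ : ψ ≠ 1) (hodd : Odd (∑ b, n b))
    (c : ∀ b, Fin (n b + 2) → E) (hc : ∀ b j, c b j ≠ 0) :
    ∏ b, ((-1) ^ n b * (({y : Fin (n b + 2) → E | y ≠ 0 ∧
      ∑ j, c b j * y j ^ μ b = 0}.ncard : ℂ) /
      (Fintype.card E - 1) - ∑ l ∈ range (n b + 1), (Fintype.card E : ℂ) ^ l)) =
      ∑ s ∈ lines n μ, (χ⁻¹) (Algebra.norm k (aps m c s)) *
        (rho m χ ψ s) ^ Module.finrank k E := by
  have hd0 : ∀ b, m / μ b ≠ 0 := fun b =>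
    (Nat.div_pos (Nat.le_of_dvd (Nat.pos_of_ne_zero (NeZero.ne m)) (hμ b))
      (Nat.pos_of_ne_zero (NeZero.ne _))).ne'
  have hord : ∀ b, orderOf (χ ^ (m / μ b)) = μ b := by
    intro b
    rw [orderOf_pow_of_dvd (hd0 b) (by rw [hχ]; exact Nat.div_dvd_of_dvd (hμ b)), hχ]
    exact Nat.div_div_self (hμ b) (NeZero.ne m)
  rw [Finset.prod_congr rfl fun b _ => trace_block ((hμ b).trans hm) (χ ^ (m / μ b)) (hord b) hψ
    (c b) (hc b), Finset.prod_univ_sum]
  refine Finset.sum_congr rfl fun s hs => ?_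
  have hs' : s ∈ lines n μ := hs
  rw [Finset.prod_mul_distrib]
  congr 1
  · have h1 : ∀ (b : Fin r) (j : Fin (n b + 2)), (χ ^ (m / μ b))⁻¹ (Algebra.norm k (c b j)) ^ (s b j).val =
        (χ⁻¹) (Algebra.norm k (c b j)) ^ ex m s b j := by
      intro b j
      have h2 : (χ ^ (m / μ b))⁻¹ = (χ⁻¹) ^ (m / μ b) := (inv_pow χ _).symm
      rw [h2, mc_pow_apply _ (hd0 b), ← pow_mul]
      rfl
    simp only [h1, aps, map_prod, map_pow]
  · rw [Finset.prod_pow]
    congr 1
    have h1 : ∀ (b : Fin r) (j : Fin (n b + 2)), (χ ^ (m / μ b)) ^ (s b j).val = χ ^ ex m s b j := by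
      intro b j
      rw [← pow_mul]
      rfl
    simp only [h1]
    rw [Finset.prod_mul_distrib, Finset.prod_mul_distrib, Finset.prod_const, Finset.card_univ,
      Fintype.card_fin, Finset.prod_pow_eq_pow_sum, hodd.neg_one_pow, rho, inv_pow]
    ring

end ext

/-- the absolute value of `rho` -/
lemma norm_rho (hμ : ∀ b, μ b ∣ m) (χ : MulChar k ℂ) (hχ : orderOf χ = m)
    {ψ : AddChar k ℂ} (hψ : ψ ≠ 1) {s : ∀ b, Fin (n b + 2) → ZMod (μ b)} (hs : s ∈ lines n μ) :
    ‖rho m χ ψ s‖ ^ 2 = (Fintype.card k : ℝ) ^ (∑ b, n b) := by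
  have hq : (0 : ℝ) < Fintype.card k := by exact_mod_cast Fintype.card_pos
  have h1 : ∀ b j, ‖gaussSum (χ ^ ex m s b j) ψ‖ ^ 2 = Fintype.card k := by
    intro b j
    refine norm_gaussSum (fun h => ?_) hψ
    have h3 := orderOf_dvd_of_pow_eq_one h
    rw [hχ] at h3
    have h4 := Nat.eq_zero_of_dvd_of_lt h3 (ex_lt hμ s b j)
    exact (ex_pos hμ hs b j).ne' h4
  unfold rho
  rw [norm_mul, norm_neg, norm_inv, norm_pow, Complex.norm_natCast, norm_prod, mul_pow,
    ← Finset.prod_pow]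
  have h2 : ∀ b ∈ univ, ‖∏ j, gaussSum (χ ^ ex m s b j) ψ‖ ^ 2 =
      (Fintype.card k : ℝ) ^ n b * (Fintype.card k : ℝ) ^ 2 := by
    intro b _
    rw [norm_prod, ← Finset.prod_pow, Finset.prod_congr rfl fun j _ => h1 b j, Finset.prod_const,
      Finset.card_univ, Fintype.card_fin, pow_add]
  rw [Finset.prod_congr rfl h2, Finset.prod_mul_distrib, Finset.prod_const, Finset.card_univ,
    Fintype.card_fin, Finset.prod_pow_eq_pow_sum, inv_pow, ← pow_mul, ← pow_mul, mul_comm r 2]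
  field_simp

end

section

variable {k F : Type} [Field k] [Fintype k] [Field F] [Algebra k F] [IsFF k F]

lemma red_prod (v : Place k F) {ι : Type} (S : Finset ι) (f : ι → F) (h : ∀ i ∈ S, v.Reg (f i)) :
    v.Reg (∏ i ∈ S, f i) ∧ v.red (∏ i ∈ S, f i) = ∏ i ∈ S, v.red (f i) := by
  classical
  induction S using Finset.induction_on with
  | empty =>
    simp only [Finset.prod_empty]
    exact ⟨v.reg_one, v.red_one⟩
  | insert i S hi ih =>
    have h1 := ih fun j hj => h j (Finset.mem_insert_of_mem hj)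
    have h2 := h i (Finset.mem_insert_self i S)
    rw [Finset.prod_insert hi, Finset.prod_insert hi]
    exact ⟨v.reg_mul h2 h1.1, by rw [v.red_mul h2 h1.1, h1.2]⟩

lemma reg_pow (v : Place k F) {f : F} (hf : v.Reg f) (j : ℕ) : v.Reg (f ^ j) := by
  induction j with
  | zero => rw [pow_zero]; exact v.reg_one
  | succ j ih => rw [pow_succ]; exact v.reg_mul ih hf

variable {m r : ℕ} [NeZero m] {n μ : Fin r → ℕ} [∀ b, NeZero (μ b)]

lemma red_aps (v : Place k F) (a : ∀ b, Fin (n b + 2) → F) (hv : ∀ b j, v.ord (a b j) = 0)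
    (s : ∀ b, Fin (n b + 2) → ZMod (μ b)) :
    v.red (aps m a s) = aps m (fun b j => v.red (a b j)) s := by
  have hreg : ∀ b j, v.Reg (a b j) := fun b j => Or.inr (hv b j).ge
  have h1 : ∀ b, v.Reg (∏ j, a b j ^ ex m s b j) ∧
      v.red (∏ j, a b j ^ ex m s b j) = ∏ j, v.red (a b j ^ ex m s b j) := fun b =>
    red_prod v _ _ fun j _ => reg_pow v (hreg b j) _
  unfold aps
  rw [(red_prod v _ _ fun b _ => (h1 b).1).2]
  refine Finset.prod_congr rfl fun b _ => ?_
  rw [(h1 b).2]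
  exact Finset.prod_congr rfl fun j _ => v.red_pow (hreg b j) _

lemma ord_prod (v : Place k F) {ι : Type} (S : Finset ι) (f : ι → F) (h : ∀ i ∈ S, f i ≠ 0) :
    v.ord (∏ i ∈ S, f i) = ∑ i ∈ S, v.ord (f i) := by
  classical
  induction S using Finset.induction_on with
  | empty =>
    simp only [Finset.prod_empty, Finset.sum_empty]
    exact v.ord_one
  | insert i S hi ih =>
    rw [Finset.prod_insert hi, Finset.sum_insert hi,
      v.ord_mul (h i (Finset.mem_insert_self i S))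
        (Finset.prod_ne_zero_iff.2 fun j hj => h j (Finset.mem_insert_of_mem hj)),
      ih fun j hj => h j (Finset.mem_insert_of_mem hj)]

lemma aps_ne_zero {a : ∀ b, Fin (n b + 2) → F} (ha : ∀ b j, a b j ≠ 0)
    (s : ∀ b, Fin (n b + 2) → ZMod (μ b)) : aps m a s ≠ 0 :=
  Finset.prod_ne_zero_iff.2 fun b _ => Finset.prod_ne_zero_iff.2 fun j _ => pow_ne_zero _ (ha b j)

lemma ord_aps (v : Place k F) {a : ∀ b, Fin (n b + 2) → F} (ha : ∀ b j, a b j ≠ 0)
    (hv : ∀ b j, v.ord (a b j) = 0) (s : ∀ b, Fin (n b + 2) → ZMod (μ b)) :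
    v.ord (aps m a s) = 0 := by
  have hpow : ∀ (f : F) (hf : f ≠ 0) (j : ℕ), v.ord (f ^ j) = j * v.ord f := by
    intro f hf j
    induction j with
    | zero => rw [pow_zero, v.ord_one]; simp
    | succ j ih => rw [pow_succ, v.ord_mul (pow_ne_zero _ hf) hf, ih]; push_cast; ring
  unfold aps
  rw [ord_prod v _ _ fun b _ => Finset.prod_ne_zero_iff.2 fun j _ => pow_ne_zero _ (ha b j)]
  refine Finset.sum_eq_zero fun b _ => ?_
  rw [ord_prod v _ _ fun j _ => pow_ne_zero _ (ha b j)]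
  refine Finset.sum_eq_zero fun j _ => ?_
  rw [hpow _ (ha b j), hv b j, mul_zero]

/-- the eigenvalue of Frobenius at a place -/
noncomputable def eig (m : ℕ) (χ : MulChar k ℂ) (ψ : AddChar k ℂ) (a : ∀ b, Fin (n b + 2) → F)
    (s : ∀ b, Fin (n b + 2) → ZMod (μ b)) (v : Place k F) : ℂ :=
  kv χ⁻¹ (aps m a s) v * rho m χ ψ s ^ v.deg

/-- the trace at a place, over an extension of the residue field -/
theorem trace_place (hm : m ∣ Fintype.card k - 1) (hμ : ∀ b, μ b ∣ m) (χ : MulChar k ℂ)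
    (hχ : orderOf χ = m) {ψ : AddChar k ℂ} (hψ : ψ ≠ 1) (hodd : Odd (∑ b, n b))
    (a : ∀ b, Fin (n b + 2) → F) (ha : ∀ b j, a b j ≠ 0) (v : Place k F)
    (hv : ∀ b j, v.ord (a b j) = 0) (E : Type) [Field E] [Fintype E] [Algebra v.RF E] :
    ∏ b, ((-1) ^ n b * (({y : Fin (n b + 2) → E | y ≠ 0 ∧
      ∑ j, algebraMap v.RF E (v.red (a b j)) * y j ^ μ b = 0}.ncard : ℂ) /
      (Fintype.card E - 1) - ∑ l ∈ range (n b + 1), (Fintype.card E : ℂ) ^ l)) =
      ∑ s ∈ lines n μ, eig m χ ψ a s v ^ finrank v.RF E := by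
  letI : Algebra k E := ((algebraMap v.RF E).comp (algebraMap k v.RF)).toAlgebra
  haveI : IsScalarTower k v.RF E := IsScalarTower.of_algebraMap_eq fun x => rfl
  have h1 := trace_prod (E := E) hm hμ χ hχ hψ hodd
    (fun b j => algebraMap v.RF E (v.red (a b j))) (fun b j => by
      rw [Ne, map_eq_zero_iff _ (algebraMap v.RF E).injective]
      exact v.red_ne_zero (ha b j) (hv b j))
  refine h1.trans (Finset.sum_congr rfl fun s _ => ?_)
  have h2 : aps m (fun b j => algebraMap v.RF E (v.red (a b j))) s =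
      algebraMap v.RF E (v.red (aps m a s)) := by
    rw [red_aps v a hv s]
    simp only [aps, map_prod, map_pow]
  rw [h2, ← Algebra.norm_norm (R := k) (S := v.RF), Algebra.norm_algebraMap, map_pow, map_pow, eig,
    mul_pow, ← pow_mul, kv, nv]
  congr 2
  exact (Module.finrank_mul_finrank k v.RF E).symm

/-- the factor of the L-function at a good place -/
theorem local_factor (hm : m ∣ Fintype.card k - 1) (hμ : ∀ b, μ b ∣ m) (χ : MulChar k ℂ)
    (hχ : orderOf χ = m) {ψ : AddChar k ℂ} (hψ : ψ ≠ 1) (hodd : Odd (∑ b, n b))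
    (a : ∀ b, Fin (n b + 2) → F) (ha : ∀ b j, a b j ≠ 0) (v : Place k F)
    (hv : ∀ b j, v.ord (a b j) = 0) (A : Multiset ℂ)
    (hA : ∀ (E : Type) [Field E] [Fintype E] [Algebra v.RF E],
      ∏ b, ((-1) ^ n b * (({y : Fin (n b + 2) → E | y ≠ 0 ∧
      ∑ j, algebraMap v.RF E (v.red (a b j)) * y j ^ μ b = 0}.ncard : ℂ) /
      (Fintype.card E - 1) - ∑ l ∈ range (n b + 1), (Fintype.card E : ℂ) ^ l)) =
      (A.map fun α => α ^ finrank v.RF E).sum) :
    PB A = PB ((lines n μ).val.map fun s => eig m χ ψ a s v) := by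
  classical
  have hf : Finite v.RF := Module.finite_of_finite k
  letI := Fintype.ofFinite v.RF
  apply PB_ext
  intro l hl
  obtain ⟨E, _, _, _, hE⟩ := exists_ext v.RF l hl
  rw [← hE, ← hA E, trace_place hm hμ χ hχ hψ hodd a ha v hv E, Multiset.map_map]
  rfl

end

end Pool.Agent.Zk8.FK
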