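import Pool.Agent.Zk8.FK.Assemble
import Pool.Agent.H525R3.FFp.Bridge
import Pool.Agent.H707R3.CurveDefs

/-!
# Places as valuation rings, and the power residue symbol
-/

set_option autoImplicit false
set_option linter.all false

namespace Pool.Agent.Zk8.FK

open Finset Module
open Pool.Agent.H707R3 (Place IsCurveFunctionField)
open Pool.Agent.H525R3.FFp (toVal bridge)

section

variable {k K : Type} [Field k] [Fintype k] [Field K] [Algebra k K]

open scoped Classical in
/-- The value of `χ` at the norm to `k` of the residue of `x` at `v`: it is `χ c` if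
`x ^ ((|κ_v| - 1) / (|k| - 1))` is congruent to `c ∈ k` modulo `v`. -/
noncomputable def symb (χ : MulChar k ℂ) (x : K) (v : Place k K) : ℂ :=
  ∑ c : k, if v.ring.valuation (x ^ ((Nat.card v.κ - 1) / (Fintype.card k - 1)) -
    algebraMap k K c) < 1 then χ c else 0

lemma val_lt_one (P : FF.Place k K) {f : K} (hf : P.Reg f) :
    (toVal P).ring.valuation f < 1 ↔ P.red f = 0 := by
  have h1 := ValuationSubring.valuation_lt_one_iff (toVal P).ring ⟨f, hf⟩
  rw [P.red_of_reg hf]
  refine h1.symm.trans ?_
  exact (IsLocalRing.residue_eq_zero_iff (R := P.O) ⟨f, hf⟩).symm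

theorem symb_eq [FF.IsFF k K] (P : FF.Place k K) (χ : MulChar k ℂ) {x : K} (hx : x ≠ 0)
    (h : P.ord x = 0) : symb χ x (toVal P) = kv χ x P := by
  classical
  have hfin : Finite P.RF := Module.finite_of_finite k
  have hreg : P.Reg x := Or.inr h.ge
  have hcond : ∀ c : k, (toVal P).ring.valuation (x ^ ((Nat.card (toVal P).κ - 1) /
      (Fintype.card k - 1)) - algebraMap k K c) < 1 ↔ nv x P = c := by
    intro c
    have hr1 : P.Reg (x ^ ((Nat.card (toVal P).κ - 1) / (Fintype.card k - 1))) := reg_pow P hreg _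
    have hr2 : P.Reg (algebraMap k K c) := P.reg_const c
    have hr : P.Reg (x ^ ((Nat.card (toVal P).κ - 1) / (Fintype.card k - 1)) - algebraMap k K c) := by
      rw [sub_eq_add_neg]
      exact P.reg_add hr1 (P.reg_neg hr2)
    rw [val_lt_one P hr, P.red_sub hr1 hr2, P.red_pow hreg, sub_eq_zero]
    have h1 := FiniteField.algebraMap_norm_eq_pow (K := k) (K' := P.RF) (x := P.red x)
    have h2 : Nat.card (toVal P).κ = Nat.card P.RF := rfl
    rw [h2, ← Nat.card_eq_fintype_card (α := k), ← h1]
    have h3 : P.red (algebraMap k K c) = algebraMap k P.RF c := rfl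
    rw [h3]
    exact (algebraMap k P.RF).injective.eq_iff
  unfold symb
  simp only [hcond]
  rw [Finset.sum_ite_eq, if_pos (mem_univ _)]
  rfl

/-- homomorphisms from the valuation ring to finite fields -/
theorem exists_algebra [FF.IsFF k K] (P : FF.Place k K) (E : Type) [Field E] [Fintype E]
    (φ : P.O →+* E) (l : ℕ) (hl : Fintype.card E = Nat.card (toVal P).κ ^ l) :
    ∃ _ : Algebra P.RF E, (∀ (f : K) (hf : P.Reg f), algebraMap P.RF E (P.red f) = φ ⟨f, hf⟩) ∧
      finrank P.RF E = l := by
  classical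
  have hfin : Finite P.RF := Module.finite_of_finite k
  have hloc : IsLocalHom φ := by
    refine ⟨fun x hx => ?_⟩
    by_contra hu
    have hmem : x ∈ IsLocalRing.maximalIdeal P.O := (IsLocalRing.mem_maximalIdeal _).2 hu
    have h0 : φ x ≠ 0 := hx.ne_zero
    have h1 : φ x ^ (Fintype.card E - 1) = 1 := FiniteField.pow_card_sub_one_eq_one _ h0
    have hE : 1 < Fintype.card E := Fintype.one_lt_card
    have h2 : φ (1 - x ^ (Fintype.card E - 1)) = 0 := by
      rw [map_sub, map_one, map_pow, h1, sub_self]
    have h3 : IsUnit (1 - x ^ (Fintype.card E - 1)) := by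
      by_contra h4
      have h5 : 1 - x ^ (Fintype.card E - 1) ∈ IsLocalRing.maximalIdeal P.O :=
        (IsLocalRing.mem_maximalIdeal _).2 h4
      have h6 : x ^ (Fintype.card E - 1) ∈ IsLocalRing.maximalIdeal P.O :=
        Ideal.pow_mem_of_mem _ hmem _ (by omega)
      have h7 : (1 : P.O) ∈ IsLocalRing.maximalIdeal P.O := by
        have := Ideal.add_mem _ h5 h6
        rwa [sub_add_cancel] at this
      exact (Ideal.ne_top_iff_one _).1 (IsLocalRing.maximalIdeal.isMaximal P.O).ne_top h7
    exact (h3.map φ).ne_zero h2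
  letI alg : Algebra P.RF E := (IsLocalRing.ResidueField.lift φ).toAlgebra
  refine ⟨alg, ?_, ?_⟩
  · intro f hf
    rw [P.red_of_reg hf]
    exact IsLocalRing.ResidueField.lift_residue_apply φ ⟨f, hf⟩
  · have : Fintype P.RF := Fintype.ofFinite _
    have h1 := Module.card_eq_pow_finrank (K := P.RF) (V := E)
    have h2 : Nat.card (toVal P).κ = Fintype.card P.RF := Nat.card_eq_fintype_card (α := P.RF)
    rw [hl, h2] at h1
    exact (Nat.pow_right_injective Fintype.one_lt_card h1).symm

end

end Pool.Agent.Zk8.FK
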